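import Pool.Agent.Lib.MP_531058_lc.RCA.Sys

/-!
# Closure rules for functions and relations between codable types
-/

namespace Pool.Agent.Lib.MP_531058_lc.RCA

universe u v w v' w'

variable {M : Type u} [DSR M] {s : Sys M}

variable {α : Type v} {β : Type w} {γ : Type v'} {δ : Type w'} [Cd s α] [Cd s β] [Cd s γ] [Cd s δ]

theorem F_congr {f g : M → M} (h : f ∈ s.F) (e : ∀ x, g x = f x) : g ∈ s.F := by
  have : g = f := funext e
  rw [this]; exact h

/-! ## functions -/

theorem FR.id : FR s (fun a : α => a) := Cd.mem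

theorem FR.const (b : β) : FR s (fun _ : α => b) := s.const_mem _

theorem FR.comp {g : β → γ} {f : α → β} (hg : FR s g) (hf : FR s f) : FR s (fun a => g (f a)) := by
  refine F_congr (s.comp_mem _ hg _ hf) fun x => ?_
  simp [Cd.dec_enc]

theorem FR.congr {f g : α → β} (h : FR s f) (e : ∀ x, g x = f x) : FR s g := by
  have : g = f := funext e
  rw [this]; exact h

theorem FR.pair {f : α → β} {g : α → γ} (hf : FR s f) (hg : FR s g) : FR s (fun a => (f a, g a)) :=
  s.pr_mem _ hf _ hg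

theorem FR.fst : FR s (fun x : α × β => x.1) := by
  unfold FR
  exact s.comp_mem _ (Cd.mem (s := s) (α := α)) _ s.lf_mem

theorem FR.snd : FR s (fun x : α × β => x.2) := by
  unfold FR
  exact s.comp_mem _ (Cd.mem (s := s) (α := β)) _ s.rt_mem

theorem FR.fst' {f : α → β × γ} (h : FR s f) : FR s (fun a => (f a).1) := FR.comp FR.fst h

theorem FR.snd' {f : α → β × γ} (h : FR s f) : FR s (fun a => (f a).2) := FR.comp FR.snd h

theorem FR.comp₂ {g : β × γ → δ} {f : α → β} {f' : α → γ} (hg : FR s g) (hf : FR s f)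
    (hf' : FR s f') : FR s (fun a => g (f a, f' a)) := FR.comp hg (FR.pair hf hf')

theorem FR.add {f g : α → M} (hf : FR s f) (hg : FR s g) : FR s (fun a => f a + g a) :=
  s.add_mem _ hf _ hg

theorem FR.mul {f g : α → M} (hf : FR s f) (hg : FR s g) : FR s (fun a => f a * g a) :=
  s.mul_mem _ hf _ hg

theorem FR.succ {f : α → M} (hf : FR s f) : FR s (fun a => f a + 1) :=
  FR.add hf (FR.const (β := M) 1)

theorem FR.of_mem {f : M → M} (hf : f ∈ s.F) : FR s f := hf

/-! ## relations -/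

theorem FP.congr {p q : α → Prop} (h : FP s p) (e : ∀ x, q x ↔ p x) : FP s q := by
  have : q = p := funext fun x => propext (e x)
  rw [this]; exact h

theorem FP.comp {p : β → Prop} {f : α → β} (hp : FP s p) (hf : FR s f) :
    FP s (fun a => p (f a)) := by
  refine F_congr (s.comp_mem _ hp _ hf) fun x => ?_
  simp [Cd.dec_enc]

theorem FP.comp₂ {p : β × γ → Prop} {f : α → β} {g : α → γ} (hp : FP s p) (hf : FR s f)
    (hg : FR s g) : FP s (fun a => p (f a, g a)) := FP.comp hp (FR.pair hf hg)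

/-- definition by cases -/
theorem FR.sel {p : α → Prop} {f g : α → β} (hp : FP s p) (hf : FR s f) (hg : FR s g) :
    FR s (fun a => sel (p a) (f a) (g a)) := by
  refine F_congr (s.ite_mem _ hp _ hg _ hf) fun x => ?_
  show Cd.enc s (RCA.sel (p (Cd.dec s x)) (f (Cd.dec s x)) (g (Cd.dec s x))) = _
  by_cases h : p (Cd.dec s x)
  · rw [sel_pos h, sel_neg (by rw [chi_eq_zero]; exact not_not.2 h)]
  · rw [sel_neg h, sel_pos (by rw [chi_eq_zero]; exact h)]

theorem FR.ite {p : α → Prop} [DecidablePred p] {f g : α → β} (hp : FP s p) (hf : FR s f)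
    (hg : FR s g) : FR s (fun a => if p a then f a else g a) :=
  (FR.sel hp hf hg).congr fun x => (sel_eq _ _).symm

theorem FP.le {f g : α → M} (hf : FR s f) (hg : FR s g) : FP s (fun a => f a ≤ g a) :=
  s.le_mem _ hf _ hg

/-- boolean combinations -/
theorem FP.bool {p q r : α → Prop} (hp : FP s p) (hq : FP s q) (hr : FP s r) :
    FP s (fun a => (p a → q a) ∧ (¬ p a → r a)) := by
  refine F_congr (s.ite_mem _ hp _ hr _ hq) fun x => ?_
  by_cases h : p (Cd.dec s x)
  · rw [sel_neg (by rw [chi_eq_zero]; exact not_not.2 h)]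
    congr 1; simp [h]
  · rw [sel_pos (by rw [chi_eq_zero]; exact h)]
    congr 1; simp [h]

theorem FP.const (p : Prop) : FP s (fun _ : α => p) := s.const_mem _

theorem FP.not {p : α → Prop} (hp : FP s p) : FP s (fun a => ¬ p a) :=
  (FP.bool hp (FP.const False) (FP.const True)).congr fun x => by tauto

theorem FP.and {p q : α → Prop} (hp : FP s p) (hq : FP s q) : FP s (fun a => p a ∧ q a) :=
  (FP.bool hp hq (FP.const False)).congr fun x => by tauto

theorem FP.or {p q : α → Prop} (hp : FP s p) (hq : FP s q) : FP s (fun a => p a ∨ q a) :=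
  (FP.bool hp (FP.const True) hq).congr fun x => by tauto

theorem FP.imp {p q : α → Prop} (hp : FP s p) (hq : FP s q) : FP s (fun a => p a → q a) :=
  (FP.or (FP.not hp) hq).congr fun x => by tauto

theorem FP.iff {p q : α → Prop} (hp : FP s p) (hq : FP s q) : FP s (fun a => (p a ↔ q a)) :=
  (FP.and (FP.imp hp hq) (FP.imp hq hp)).congr fun x => by tauto

theorem FP.lt {f g : α → M} (hf : FR s f) (hg : FR s g) : FP s (fun a => f a < g a) :=
  (FP.not (FP.le hg hf)).congr fun x => by simp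

theorem FP.eqM {f g : α → M} (hf : FR s f) (hg : FR s g) : FP s (fun a => f a = g a) :=
  (FP.and (FP.le hf hg) (FP.le hg hf)).congr fun x => by
    constructor
    · rintro h; exact ⟨h.le, h.ge⟩
    · rintro ⟨h, h'⟩; exact le_antisymm h h'

theorem FP.eq {f g : α → β} (hf : FR s f) (hg : FR s g) : FP s (fun a => f a = g a) := by
  have h : FP s (fun a => Cd.enc s (f a) = Cd.enc s (g a)) :=
    FP.eqM (f := fun a => Cd.enc s (f a)) (g := fun a => Cd.enc s (g a)) hf hg
  refine h.congr fun x => ?_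
  constructor
  · intro e; rw [e]
  · intro e
    have := congrArg (Cd.dec s (α := β)) e
    rwa [Cd.dec_enc, Cd.dec_enc] at this

theorem dec_pr (x i : M) : (Cd.dec s (s.pr x i) : α × M) = (Cd.dec s x, i) := by
  show (Cd.dec s (s.lf (s.pr x i)), Cd.dec s (s.rt (s.pr x i))) = _
  rw [s.lf_pr, s.rt_pr]; rfl

/-- bounded universal quantifier -/
theorem FP.ball {b : α → M} {p : α × M → Prop} (hb : FR s b) (hp : FP s p) :
    FP s (fun a => ∀ i < b a, p (a, i)) := by
  have h1 : FP s (fun x : α × M => ¬ p x) := FP.not hp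
  refine F_congr (s.ball_mem _ h1 _ hb) fun x => ?_
  congr 1
  refine propext (forall_congr' fun i => forall_congr' fun _ => ?_)
  rw [chi_eq_zero, not_not, dec_pr]

theorem FP.bex {b : α → M} {p : α × M → Prop} (hb : FR s b) (hp : FP s p) :
    FP s (fun a => ∃ i < b a, p (a, i)) :=
  (FP.not (FP.ball hb (FP.not hp))).congr fun x => by push Not; rfl

theorem FP.ballc {b : α → M} {p : α → M → Prop} (hb : FR s b) (hp : FP s (fun x : α × M => p x.1 x.2)) :
    FP s (fun a => ∀ i < b a, p a i) := FP.ball hb hp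

theorem FP.bexc {b : α → M} {p : α → M → Prop} (hb : FR s b) (hp : FP s (fun x : α × M => p x.1 x.2)) :
    FP s (fun a => ∃ i < b a, p a i) := FP.bex hb hp

theorem DSR.lt_succ_iff {a b : M} : a < b + 1 ↔ a ≤ b := by
  constructor
  · intro h
    by_contra h'
    exact absurd (lt_of_lt_of_le h (DSR.succ_le_of_lt b a (not_le.1 h'))) (lt_irrefl _)
  · intro h
    exact lt_of_le_of_lt h (lt_add_one b)

theorem FP.ballc_le {b : α → M} {p : α → M → Prop} (hb : FR s b)
    (hp : FP s (fun x : α × M => p x.1 x.2)) : FP s (fun a => ∀ i ≤ b a, p a i) :=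
  (FP.ballc (FR.succ hb) hp).congr fun x => by simp [DSR.lt_succ_iff]

theorem FP.bexc_le {b : α → M} {p : α → M → Prop} (hb : FR s b)
    (hp : FP s (fun x : α × M => p x.1 x.2)) : FP s (fun a => ∃ i ≤ b a, p a i) :=
  (FP.bexc (FR.succ hb) hp).congr fun x => by simp [DSR.lt_succ_iff]

/-! ## recursion, minimisation, induction -/

/-- primitive recursion along `M` -/
theorem FR.prec {f : α → β} {g : α × M × β → β} (hf : FR s f) (hg : FR s g) :
    ∃ h : α → M → β, FR s (fun x : α × M => h x.1 x.2) ∧ (∀ a, h a 0 = f a) ∧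
      ∀ a n, h a (n + 1) = g (a, n, h a n) := by
  -- the step function on codes: `pr (pr x n) b ↦ enc (g (dec x, n, dec b))`
  have hg' : FR s (fun z : (α × M) × β => g (z.1.1, z.1.2, z.2)) :=
    FR.comp hg (FR.pair (FR.fst' FR.fst) (FR.pair (FR.snd' FR.fst) FR.snd))
  obtain ⟨h, hh, hr⟩ := s.prec _ hf _ hg'
  refine ⟨fun a n => Cd.dec s (h (s.pr (Cd.enc s a) n)), ?_, ?_, ?_⟩
  · have h1 : (fun m : M => h (s.pr (Cd.enc s (Cd.dec s (s.lf m) : α)) (s.rt m))) ∈ s.F :=
      s.comp_mem _ hh _ (s.pr_mem _ (s.comp_mem _ (Cd.mem (s := s) (α := α)) _ s.lf_mem) _ s.rt_mem)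
    exact s.comp_mem _ (Cd.mem (s := s) (α := β)) _ h1
  · intro a
    show Cd.dec s (h (s.pr (Cd.enc s a) 0)) = f a
    rw [(hr _).1]
    show Cd.dec s (Cd.enc s (f (Cd.dec s (Cd.enc s a)))) = f a
    rw [Cd.dec_enc, Cd.dec_enc]
  · intro a n
    show Cd.dec s (h (s.pr (Cd.enc s a) (n + 1))) = _
    rw [(hr _).2 n]
    show Cd.dec s (Cd.enc s (g ((Cd.dec s (s.pr (s.pr (Cd.enc s a) n)
      (h (s.pr (Cd.enc s a) n))) : (α × M) × β).1.1, _, _))) = _
    rw [Cd.dec_enc]
    congr 1
    have e : (Cd.dec s (s.pr (s.pr (Cd.enc s a) n) (h (s.pr (Cd.enc s a) n))) : (α × M) × β) =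
        ((a, n), Cd.dec s (h (s.pr (Cd.enc s a) n))) := by
      show ((Cd.dec s (s.lf (s.lf _)), Cd.dec s (s.rt (s.lf _))), Cd.dec s (s.rt _)) = _
      rw [s.lf_pr, s.rt_pr, s.lf_pr, s.rt_pr, Cd.dec_enc]; rfl
    rw [e]

/-- minimisation of a total search -/
theorem FR.mu {p : α → M → Prop} (hp : FP s (fun x : α × M => p x.1 x.2)) (ht : ∀ a, ∃ i, p a i) :
    ∃ h : α → M, FR s h ∧ (∀ a, p a (h a)) ∧ ∀ a, ∀ i < h a, ¬ p a i := by
  have hd : ∀ x i : M, (chi (¬ (fun x : α × M => p x.1 x.2) (Cd.dec s (s.pr x i))) : M) = 0 ↔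
      p (Cd.dec s x) i := by
    intro x i
    rw [chi_eq_zero, not_not, dec_pr]
  obtain ⟨h, hh, hr⟩ := s.mu _ (FP.not hp) (fun x => by
    obtain ⟨i, hi⟩ := ht (Cd.dec s x)
    exact ⟨i, (hd x i).2 hi⟩)
  refine ⟨fun a => h (Cd.enc s a), ?_, ?_, ?_⟩
  · exact s.comp_mem _ hh _ (Cd.mem (s := s) (α := α))
  · intro a
    have := (hd _ _).1 (hr (Cd.enc s a)).1
    rwa [Cd.dec_enc] at this
  · intro a i hi hc
    refine (hr (Cd.enc s a)).2 i hi ((hd _ _).2 ?_)
    rwa [Cd.dec_enc]

theorem FP.ind {p : M → Prop} (hp : FP s p) (h0 : p 0) (h1 : ∀ n, p n → p (n + 1)) : ∀ n, p n := by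
  have h := s.ind _ (FP.not hp)
  intro n
  have := h (chi_eq_zero.2 (not_not.2 h0)) (fun n hn => by
    rw [chi_eq_zero, not_not] at hn ⊢
    exact h1 n hn) n
  rwa [chi_eq_zero, not_not] at this

end Pool.Agent.Lib.MP_531058_lc.RCA
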