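import Mathlib

/-!
# The interface: discretely ordered semirings with a class of functions

`DSR M`: discretely ordered commutative semiring (the algebraic axioms `P^-`).
`Sys M`: a class `F` of functions `M → M` (think: the functions whose graph is in the second order part
of a model of RCA_0, or: the functions recursive in a set `X` for `M = ℕ`), closed under composition,
pairing, primitive recursion and minimisation, with induction for relations in the class.

Codable types: `Cd s α`. `FR s f`: the function `f : α → β` between codable types is in the class.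
`FP s p`: the relation `p : α → Prop` is in the class.
-/

namespace Pool.Agent.Lib.MP_531058_lc.RCA

universe u v w

/-- discretely ordered commutative semirings with least element `0` -/
class DSR (M : Type u) extends CommSemiring M, LinearOrder M, IsStrictOrderedRing M,
    CanonicallyOrderedAdd M where
  succ_le_of_lt : ∀ a b : M, a < b → a + 1 ≤ b

/-- selection by a proposition (classical) -/
noncomputable def sel {α : Type v} (p : Prop) (a b : α) : α :=
  @ite α p (Classical.propDecidable p) a b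

theorem sel_pos {α : Type v} {p : Prop} (h : p) (a b : α) : sel p a b = a := if_pos h

theorem sel_neg {α : Type v} {p : Prop} (h : ¬ p) (a b : α) : sel p a b = b := if_neg h

theorem sel_eq {α : Type v} {p : Prop} [Decidable p] (a b : α) :
    sel p a b = if p then a else b := by
  by_cases h : p
  · rw [sel_pos h, if_pos h]
  · rw [sel_neg h, if_neg h]

/-- characteristic value of a proposition: `1` or `0` -/
noncomputable def chi {M : Type u} [DSR M] (p : Prop) : M := sel p 1 0

theorem chi_eq_zero {M : Type u} [DSR M] {p : Prop} : (chi p : M) = 0 ↔ ¬ p := by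
  unfold chi
  by_cases h : p
  · rw [sel_pos h]; simp [h]
  · rw [sel_neg h]; simp [h]

theorem chi_eq_one {M : Type u} [DSR M] {p : Prop} : (chi p : M) = 1 ↔ p := by
  unfold chi
  by_cases h : p
  · rw [sel_pos h]; simp [h]
  · rw [sel_neg h]; simp [h]

/-- a class of functions on `M` -/
structure Sys (M : Type u) [DSR M] where
  /-- the functions of the class -/
  F : Set (M → M)
  /-- pairing -/
  pr : M → M → M
  /-- left component -/
  lf : M → M
  /-- right component -/
  rt : M → M
  lf_pr : ∀ a b, lf (pr a b) = a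
  rt_pr : ∀ a b, rt (pr a b) = b
  left_le_pr : ∀ a b, a ≤ pr a b
  right_le_pr : ∀ a b, b ≤ pr a b
  id_mem : (fun x => x) ∈ F
  const_mem : ∀ c : M, (fun _ => c) ∈ F
  comp_mem : ∀ f ∈ F, ∀ g ∈ F, (fun x => f (g x)) ∈ F
  lf_mem : lf ∈ F
  rt_mem : rt ∈ F
  pr_mem : ∀ f ∈ F, ∀ g ∈ F, (fun x => pr (f x) (g x)) ∈ F
  add_mem : ∀ f ∈ F, ∀ g ∈ F, (fun x => f x + g x) ∈ F
  mul_mem : ∀ f ∈ F, ∀ g ∈ F, (fun x => f x * g x) ∈ F
  le_mem : ∀ f ∈ F, ∀ g ∈ F, (fun x => chi (f x ≤ g x)) ∈ F
  ite_mem : ∀ c ∈ F, ∀ f ∈ F, ∀ g ∈ F, (fun x => sel (c x = 0) (f x) (g x)) ∈ F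
  ball_mem : ∀ c ∈ F, ∀ b ∈ F, (fun x => chi (∀ i < b x, c (pr x i) = 0)) ∈ F
  prec : ∀ f ∈ F, ∀ g ∈ F, ∃ h ∈ F, ∀ x, h (pr x 0) = f x ∧
    ∀ n, h (pr x (n + 1)) = g (pr (pr x n) (h (pr x n)))
  mu : ∀ c ∈ F, (∀ x, ∃ i, c (pr x i) = 0) →
    ∃ h ∈ F, ∀ x, c (pr x (h x)) = 0 ∧ ∀ i < h x, c (pr x i) ≠ 0
  ind : ∀ c ∈ F, c 0 = 0 → (∀ n, c n = 0 → c (n + 1) = 0) → ∀ n, c n = 0

/-- Ramsey's theorem for singletons and `b` colours, for every `b` of `M` -/
def Sys.RT1 {M : Type u} [DSR M] (s : Sys M) : Prop :=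
  ∀ f ∈ s.F, ∀ b : M, (∀ n, f n < b) → ∃ c < b, ∀ N, ∃ n, N ≤ n ∧ f n = c

/-- types whose elements are coded by elements of `M` -/
class Cd {M : Type u} [DSR M] (s : Sys M) (α : Type v) where
  /-- the code -/
  enc : α → M
  /-- decoding (total) -/
  dec : M → α
  dec_enc : ∀ a, dec (enc a) = a
  mem : (fun m => enc (dec m)) ∈ s.F

section

variable {M : Type u} [DSR M] (s : Sys M)

/-- the function `f` is in the class -/
def FR {α : Type v} {β : Type w} [Cd s α] [Cd s β] (f : α → β) : Prop :=
  (fun m => Cd.enc s (f (Cd.dec s m))) ∈ s.F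

/-- the relation `p` is in the class -/
def FP {α : Type v} [Cd s α] (p : α → Prop) : Prop :=
  (fun m => chi (p (Cd.dec s m))) ∈ s.F

instance cdM : Cd s M where
  enc := fun a => a
  dec := fun a => a
  dec_enc := fun _ => rfl
  mem := s.id_mem

instance cdProd {α : Type v} {β : Type w} [Cd s α] [Cd s β] : Cd s (α × β) where
  enc := fun x => s.pr (Cd.enc s x.1) (Cd.enc s x.2)
  dec := fun m => (Cd.dec s (s.lf m), Cd.dec s (s.rt m))
  dec_enc := fun x => by simp [s.lf_pr, s.rt_pr, Cd.dec_enc]
  mem := by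
    have h1 := s.comp_mem _ (Cd.mem (s := s) (α := α)) _ s.lf_mem
    have h2 := s.comp_mem _ (Cd.mem (s := s) (α := β)) _ s.rt_mem
    exact s.pr_mem _ h1 _ h2

end

end Pool.Agent.Lib.MP_531058_lc.RCA
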