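import Pool.Agent.Lib.MP_531058_lc.RCA.Sem
import Pool.Agent.Lib.MP_531058_lc.RCA.Sys

/-!
# The algebra of a model of `RCA₀`

`RCA0.dsr`: the number part of a model of `RCA₀` is a discretely ordered semiring.
-/

namespace Pool.Agent.Lib.MP_531058_lc.RCA

universe u

section
variable {M : Type u} [Zero M] [One M] [Add M] [Mul M] [LT M] {S : Set (Set M)}

theorem RCA0.zero_add (h : RCA0 M S) (n : M) : 0 + n = n := by
  refine h.bind (P := fun e => 0 + e 0 = e 0)
    (PB.eq (PT.add (PT.con 0) (PT.var 0)) (PT.var 0)) (fun _ => 0) ?_ ?_ n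
  · exact h.add_zero 0
  · intro n ih
    simp only [cons_zero] at ih ⊢
    rw [h.add_succ, ih]

theorem RCA0.succ_add (h : RCA0 M S) (m n : M) : (m + 1) + n = (m + n) + 1 := by
  refine h.bind (P := fun e => (m + 1) + e 0 = (m + e 0) + 1)
    (PB.eq (PT.add (PT.con _) (PT.var 0)) (PT.add (PT.add (PT.con _) (PT.var 0)) (PT.con _)))
    (fun _ => 0) ?_ ?_ n
  · simp only [cons_zero]
    rw [h.add_zero, h.add_zero]
  · intro n ih
    simp only [cons_zero] at ih ⊢
    rw [h.add_succ, ih, h.add_succ]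

theorem RCA0.add_comm (h : RCA0 M S) (m n : M) : m + n = n + m := by
  refine h.bind (P := fun e => m + e 0 = e 0 + m)
    (PB.eq (PT.add (PT.con _) (PT.var 0)) (PT.add (PT.var 0) (PT.con _))) (fun _ => 0) ?_ ?_ n
  · simp only [cons_zero]
    rw [h.add_zero, h.zero_add]
  · intro n ih
    simp only [cons_zero] at ih ⊢
    rw [h.add_succ, ih, h.succ_add]

theorem RCA0.add_assoc (h : RCA0 M S) (a b c : M) : a + b + c = a + (b + c) := by
  refine h.bind (P := fun e => a + b + e 0 = a + (b + e 0))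
    (PB.eq (PT.add (PT.con _) (PT.var 0)) (PT.add (PT.con _) (PT.add (PT.con _) (PT.var 0))))
    (fun _ => 0) ?_ ?_ c
  · simp only [cons_zero]
    rw [h.add_zero, h.add_zero]
  · intro n ih
    simp only [cons_zero] at ih ⊢
    rw [h.add_succ, ih, h.add_succ b, h.add_succ]

theorem RCA0.mul_one (h : RCA0 M S) (m : M) : m * 1 = m := by
  have h1 := h.mul_succ m 0
  rw [h.zero_add, h.mul_zero, h.zero_add] at h1
  exact h1

theorem RCA0.zero_mul (h : RCA0 M S) (n : M) : 0 * n = 0 := by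
  refine h.bind (P := fun e => 0 * e 0 = 0)
    (PB.eq (PT.mul (PT.con 0) (PT.var 0)) (PT.con 0)) (fun _ => 0) ?_ ?_ n
  · exact h.mul_zero 0
  · intro n ih
    simp only [cons_zero] at ih ⊢
    rw [h.mul_succ, ih, h.add_zero]

theorem RCA0.succ_mul (h : RCA0 M S) (m n : M) : (m + 1) * n = m * n + n := by
  refine h.bind (P := fun e => (m + 1) * e 0 = m * e 0 + e 0)
    (PB.eq (PT.mul (PT.con _) (PT.var 0)) (PT.add (PT.mul (PT.con _) (PT.var 0)) (PT.var 0)))
    (fun _ => 0) ?_ ?_ n
  · simp only [cons_zero]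
    rw [h.mul_zero, h.mul_zero, h.add_zero]
  · intro n ih
    simp only [cons_zero] at ih ⊢
    rw [h.mul_succ, ih, h.mul_succ, h.add_succ (m * n + n), h.add_succ (m * n + m),
      h.add_assoc (m * n) n m, h.add_comm n m, ← h.add_assoc (m * n) m n]

theorem RCA0.mul_comm (h : RCA0 M S) (m n : M) : m * n = n * m := by
  refine h.bind (P := fun e => m * e 0 = e 0 * m)
    (PB.eq (PT.mul (PT.con _) (PT.var 0)) (PT.mul (PT.var 0) (PT.con _))) (fun _ => 0) ?_ ?_ n
  · simp only [cons_zero]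
    rw [h.mul_zero, h.zero_mul]
  · intro n ih
    simp only [cons_zero] at ih ⊢
    rw [h.mul_succ, ih, h.succ_mul]

theorem RCA0.mul_add (h : RCA0 M S) (a b c : M) : a * (b + c) = a * b + a * c := by
  refine h.bind (P := fun e => a * (b + e 0) = a * b + a * e 0)
    (PB.eq (PT.mul (PT.con _) (PT.add (PT.con _) (PT.var 0)))
      (PT.add (PT.con _) (PT.mul (PT.con _) (PT.var 0)))) (fun _ => 0) ?_ ?_ c
  · simp only [cons_zero]
    rw [h.add_zero, h.mul_zero, h.add_zero]
  · intro n ih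
    simp only [cons_zero] at ih ⊢
    rw [h.add_succ, h.mul_succ, ih, h.mul_succ, h.add_assoc]

theorem RCA0.mul_assoc (h : RCA0 M S) (a b c : M) : a * b * c = a * (b * c) := by
  refine h.bind (P := fun e => a * b * e 0 = a * (b * e 0))
    (PB.eq (PT.mul (PT.con _) (PT.var 0)) (PT.mul (PT.con _) (PT.mul (PT.con _) (PT.var 0))))
    (fun _ => 0) ?_ ?_ c
  · simp only [cons_zero]
    rw [h.mul_zero, h.mul_zero, h.mul_zero]
  · intro n ih
    simp only [cons_zero] at ih ⊢
    rw [h.mul_succ, ih, h.mul_succ, h.mul_add]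

theorem RCA0.add_right_cancel (h : RCA0 M S) {a b : M} (c : M) (hab : a + c = b + c) :
    a = b := by
  refine h.bind (P := fun e => a + e 0 = b + e 0 → a = b)
    (PB.imp (PB.eq (PT.add (PT.con _) (PT.var 0)) (PT.add (PT.con _) (PT.var 0)))
      (PB.eq (PT.con _) (PT.con _))) (fun _ => 0) ?_ ?_ c hab
  · simp only [cons_zero]
    rw [h.add_zero, h.add_zero]
    exact id
  · intro n ih
    simp only [cons_zero] at ih ⊢
    rw [h.add_succ, h.add_succ]
    intro h1
    exact ih (h.succ_inj _ _ h1)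

theorem RCA0.zero_lt_succ (h : RCA0 M S) (n : M) : 0 < n + 1 := by
  refine h.bind (P := fun e => 0 < e 0 + 1)
    (PB.lt (PT.con 0) (PT.add (PT.var 0) (PT.con 1))) (fun _ => 0) ?_ ?_ n
  · exact (h.lt_succ 0 0).mpr (Or.inr rfl)
  · intro n ih
    simp only [cons_zero] at ih ⊢
    exact (h.lt_succ 0 _).mpr (Or.inl ih)

theorem RCA0.lt_succ_self (h : RCA0 M S) (n : M) : n < n + 1 := (h.lt_succ n n).mpr (Or.inr rfl)

theorem RCA0.succ_lt_succ (h : RCA0 M S) {m n : M} (hmn : m < n) : m + 1 < n + 1 := by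
  refine h.bind (P := fun e => m < e 0 → m + 1 < e 0 + 1)
    (PB.imp (PB.lt (PT.con _) (PT.var 0)) (PB.lt (PT.con _) (PT.add (PT.var 0) (PT.con 1))))
    (fun _ => 0) ?_ ?_ n hmn
  · exact fun h1 => absurd h1 (h.not_lt_zero m)
  · intro n ih
    simp only [cons_zero] at ih ⊢
    intro h1
    rcases (h.lt_succ m n).mp h1 with h2 | h2
    · exact (h.lt_succ _ _).mpr (Or.inl (ih h2))
    · rw [h2]
      exact h.lt_succ_self _

theorem RCA0.zero_or_pos (h : RCA0 M S) (m : M) : m = 0 ∨ 0 < m := by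
  refine h.bind (P := fun e => e 0 = 0 ∨ 0 < e 0)
    (PB.or (PB.eq (PT.var 0) (PT.con 0)) (PB.lt (PT.con 0) (PT.var 0)))
    (fun _ => 0) ?_ ?_ m
  · exact Or.inl rfl
  · intro n _
    exact Or.inr (h.zero_lt_succ n)

theorem RCA0.succ_le (h : RCA0 M S) {n m : M} (hnm : n < m) : n + 1 < m ∨ n + 1 = m := by
  refine h.bind (P := fun e => n < e 0 → (n + 1 < e 0 ∨ n + 1 = e 0))
    (PB.imp (PB.lt (PT.con _) (PT.var 0)) (PB.or (PB.lt (PT.con _) (PT.var 0))
      (PB.eq (PT.con _) (PT.var 0)))) (fun _ => 0) ?_ ?_ m hnm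
  · exact fun h1 => absurd h1 (h.not_lt_zero n)
  · intro m ih
    simp only [cons_zero] at ih ⊢
    intro h1
    rcases (h.lt_succ n m).mp h1 with h2 | h2
    · left
      rcases ih h2 with h3 | h3
      · exact (h.lt_succ _ _).mpr (Or.inl h3)
      · exact (h.lt_succ _ _).mpr (Or.inr h3)
    · right
      rw [h2]

theorem RCA0.tri (h : RCA0 M S) (m n : M) : m < n ∨ m = n ∨ n < m := by
  refine h.bind (P := fun e => m < e 0 ∨ m = e 0 ∨ e 0 < m)
    (PB.or (PB.lt (PT.con _) (PT.var 0)) (PB.or (PB.eq (PT.con _) (PT.var 0))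
      (PB.lt (PT.var 0) (PT.con _)))) (fun _ => 0) ?_ ?_ n
  · exact Or.inr (h.zero_or_pos m)
  · intro n ih
    simp only [cons_zero] at ih ⊢
    rcases ih with h1 | h1 | h1
    · exact Or.inl ((h.lt_succ _ _).mpr (Or.inl h1))
    · exact Or.inl ((h.lt_succ _ _).mpr (Or.inr h1))
    · rcases h.succ_le h1 with h2 | h2
      · exact Or.inr (Or.inr h2)
      · exact Or.inr (Or.inl h2.symm)

theorem RCA0.lt_trans (h : RCA0 M S) {a b c : M} (hab : a < b) (hbc : b < c) : a < c := by
  refine h.bind (P := fun e => b < e 0 → a < e 0)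
    (PB.imp (PB.lt (PT.con _) (PT.var 0)) (PB.lt (PT.con _) (PT.var 0)))
    (fun _ => 0) ?_ ?_ c hbc
  · exact fun h1 => absurd h1 (h.not_lt_zero b)
  · intro m ih
    simp only [cons_zero] at ih ⊢
    intro h1
    rcases (h.lt_succ b m).mp h1 with h2 | h2
    · exact (h.lt_succ _ _).mpr (Or.inl (ih h2))
    · rw [← h2]
      exact (h.lt_succ _ _).mpr (Or.inl hab)

theorem RCA0.succ_ne_self (h : RCA0 M S) (a : M) : a + 1 ≠ a := by
  refine h.bind (P := fun e => e 0 + 1 ≠ e 0)
    (PB.not (PB.eq (PT.add (PT.var 0) (PT.con 1)) (PT.var 0))) (fun _ => 0) ?_ ?_ a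
  · exact h.succ_ne_zero 0
  · intro n ih h1
    exact ih (h.succ_inj _ _ h1)

theorem RCA0.lt_irrefl (h : RCA0 M S) (a : M) : ¬ a < a := by
  refine h.bind (P := fun e => ¬ e 0 < e 0)
    (PB.not (PB.lt (PT.var 0) (PT.var 0))) (fun _ => 0) ?_ ?_ a
  · exact h.not_lt_zero 0
  · intro n ih
    simp only [cons_zero] at ih ⊢
    intro h1
    rcases (h.lt_succ _ _).mp h1 with h2 | h2
    · exact ih (h.lt_trans (h.lt_succ_self n) h2)
    · exact h.succ_ne_self n h2

theorem RCA0.add_lt_add_right (h : RCA0 M S) {a b : M} (hab : a < b) (c : M) :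
    a + c < b + c := by
  refine h.bind (P := fun e => a + e 0 < b + e 0)
    (PB.lt (PT.add (PT.con _) (PT.var 0)) (PT.add (PT.con _) (PT.var 0)))
    (fun _ => 0) ?_ ?_ c
  · simp only [cons_zero]
    rw [h.add_zero, h.add_zero]
    exact hab
  · intro n ih
    simp only [cons_zero] at ih ⊢
    rw [h.add_succ, h.add_succ]
    exact h.succ_lt_succ ih

theorem RCA0.exists_add (h : RCA0 M S) {a b : M} (hab : a < b) : ∃ c, b = a + c := by
  have key := h.bind (P := fun e => a < e 0 → ∃ c, c < e 0 + 1 ∧ (e 0 = a + c))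
    (PB.imp (PB.lt (PT.con _) (PT.var 0)) (PB.ex (P := fun e => e 1 = a + e 0)
      (PB.eq (PT.var 1) (PT.add (PT.con _) (PT.var 0))) (PT.add (PT.var 0) (PT.con 1))))
    (fun _ => 0) ?_ ?_ b hab
  · obtain ⟨c, -, h1⟩ := key
    exact ⟨c, h1⟩
  · exact fun h1 => absurd h1 (h.not_lt_zero a)
  · intro m ih
    simp only [cons_zero] at ih ⊢
    intro h1
    rcases (h.lt_succ a m).mp h1 with h2 | h2
    · obtain ⟨c, h3, h4⟩ := ih h2
      exact ⟨c + 1, h.succ_lt_succ h3, by rw [h.add_succ, ← h4]⟩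
    · refine ⟨1, ?_, by rw [h2]⟩
      have h3 := h.zero_lt_succ m
      have h4 := h.succ_lt_succ h3
      rw [h.zero_add] at h4
      exact h4

theorem RCA0.lt_add_succ (h : RCA0 M S) (a c : M) : a < a + (c + 1) := by
  have h1 := h.add_lt_add_right (h.zero_lt_succ c) a
  rw [h.zero_add, h.add_comm] at h1
  exact h1

theorem RCA0.pos_eq_succ (h : RCA0 M S) {a : M} (ha : 0 < a) : ∃ c, a = c + 1 := by
  rcases h.succ_le ha with h1 | h1
  · obtain ⟨c, hc⟩ := h.exists_add h1
    refine ⟨c, ?_⟩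
    rw [hc, h.zero_add, h.add_comm]
  · exact ⟨0, h1.symm⟩

theorem RCA0.mul_lt_mul (h : RCA0 M S) {a b c : M} (hab : a < b) (hc : 0 < c) :
    a * c < b * c := by
  obtain ⟨d, rfl⟩ := h.pos_eq_succ hc
  refine h.bind (P := fun e => a * (e 0 + 1) < b * (e 0 + 1))
    (PB.lt (PT.mul (PT.con _) (PT.add (PT.var 0) (PT.con 1)))
      (PT.mul (PT.con _) (PT.add (PT.var 0) (PT.con 1))))
    (fun _ => 0) ?_ ?_ d
  · simp only [cons_zero]
    rw [h.zero_add, h.mul_one, h.mul_one]
    exact hab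
  · intro n ih
    simp only [cons_zero] at ih ⊢
    rw [h.mul_succ a, h.mul_succ b]
    have h1 := h.add_lt_add_right ih a
    have h2 := h.add_lt_add_right hab (b * (n + 1))
    rw [h.add_comm a, h.add_comm b] at h2
    exact h.lt_trans h1 h2

theorem RCA0.le_add_aux (h : RCA0 M S) (a b : M) : a < a + b ∨ a = a + b := by
  rcases h.zero_or_pos b with h1 | h1
  · right
    rw [h1, h.add_zero]
  · left
    obtain ⟨c, rfl⟩ := h.pos_eq_succ h1
    exact h.lt_add_succ a c

/-- the number part of a model of `RCA₀` -/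
@[reducible] noncomputable def RCA0.dsr (h : RCA0 M S) : DSR M where
  add := (· + ·)
  add_assoc := h.add_assoc
  zero := 0
  zero_add := h.zero_add
  add_zero := h.add_zero
  nsmul := nsmulRec
  add_comm := h.add_comm
  mul := (· * ·)
  left_distrib := h.mul_add
  right_distrib := fun a b c => by
    rw [h.mul_comm, h.mul_add, h.mul_comm c a, h.mul_comm c b]
  zero_mul := h.zero_mul
  mul_zero := h.mul_zero
  mul_assoc := h.mul_assoc
  one := 1
  one_mul := fun a => by rw [h.mul_comm, h.mul_one]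
  mul_one := h.mul_one
  npow := @npowRec M ⟨1⟩ ⟨(· * ·)⟩
  npow_zero := fun _ => rfl
  npow_succ := fun _ _ => rfl
  mul_comm := h.mul_comm
  lt := (· < ·)
  le := fun a b => a < b ∨ a = b
  le_refl := fun a => Or.inr rfl
  le_trans := by
    rintro a b c (h1 | rfl) (h2 | rfl)
    · exact Or.inl (h.lt_trans h1 h2)
    · exact Or.inl h1
    · exact Or.inl h2
    · exact Or.inr rfl
  lt_iff_le_not_ge := by
    intro a b
    constructor
    · intro h1
      refine ⟨Or.inl h1, ?_⟩
      rintro (h2 | h2)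
      · exact h.lt_irrefl a (h.lt_trans h1 h2)
      · rw [h2] at h1
        exact h.lt_irrefl a h1
    · rintro ⟨h1 | h1, h2⟩
      · exact h1
      · exact absurd (Or.inr h1.symm) h2
  le_antisymm := by
    rintro a b (h1 | h1) (h2 | h2)
    · exact absurd (h.lt_trans h1 h2) (h.lt_irrefl a)
    · exact h2.symm
    · exact h1
    · exact h1
  min := fun a b => @ite M (a < b ∨ a = b) (Classical.propDecidable _) a b
  max := fun a b => @ite M (a < b ∨ a = b) (Classical.propDecidable _) b a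
  le_total := by
    intro a b
    rcases h.tri a b with h1 | h1 | h1
    · exact Or.inl (Or.inl h1)
    · exact Or.inl (Or.inr h1)
    · exact Or.inr (Or.inl h1)
  toDecidableLE := fun a b => Classical.propDecidable _
  min_def := fun a b => rfl
  max_def := fun a b => rfl
  add_le_add_left := by
    rintro a b (h1 | rfl) c
    · exact Or.inl (h.add_lt_add_right h1 c)
    · exact Or.inr rfl
  le_of_add_le_add_left := by
    rintro a b c (h1 | h1)
    · rcases h.tri b c with h2 | h2 | h2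
      · exact Or.inl h2
      · exact Or.inr h2
      · have h3 := h.add_lt_add_right h2 a
        rw [h.add_comm c, h.add_comm b] at h3
        exact absurd (h.lt_trans h1 h3) (h.lt_irrefl _)
    · rw [h.add_comm a, h.add_comm a] at h1
      exact Or.inr (h.add_right_cancel a h1)
  zero_le_one := Or.inl (by
    have := h.zero_lt_succ 0
    rwa [h.zero_add] at this)
  exists_pair_ne := ⟨0, 1, fun h1 => h.succ_ne_self 0 (by rw [h.zero_add]; exact h1.symm)⟩
  mul_lt_mul_of_pos_left := fun a ha b c hbc => by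
    have := h.mul_lt_mul hbc ha
    rw [h.mul_comm b, h.mul_comm c] at this
    exact this
  mul_lt_mul_of_pos_right := fun a ha b c hbc => h.mul_lt_mul hbc ha
  exists_add_of_le := by
    rintro a b (h1 | rfl)
    · exact h.exists_add h1
    · exact ⟨0, (h.add_zero _).symm⟩
  le_self_add := fun a b => h.le_add_aux a b
  le_add_self := fun a b => by
    rw [h.add_comm b a]
    exact h.le_add_aux a b
  succ_le_of_lt := fun _ _ h1 => h.succ_le h1

end

end Pool.Agent.Lib.MP_531058_lc.RCA
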