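import Pool.Agent.Lib.MP_531058_lc.RCA.Pair
import Pool.Agent.Lib.MP_531058_lc.RCA.Api

/-!
# Translation between the sets of a model `(M, S)` of `RCA₀` and the class of functions `Sys M`
-/

set_option linter.unusedSectionVars false

namespace Pool.Agent.Lib.MP_531058_lc.RCA

universe u

variable {M : Type u} [DSR M] {S : Set (Set M)}

/-- the class `s` consists of the functions of the model `(M, S)` -/
structure SysOf (s : Sys M) (S : Set (Set M)) : Prop where
  F_iff : ∀ f : M → M, f ∈ s.F ↔ PF S (fun e => f (e 0))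
  pr_eq : ∀ x y : M, s.pr x y = pr x y

/-- sets of the model are the predicates of the class -/
theorem SysOf.mem_iff {s : Sys M} (hs : SysOf s S) (h : RCA0 M S) (X : Set M) :
    X ∈ S ↔ FP s (fun x : M => x ∈ X) := by
  have h0 : FP s (fun x : M => x ∈ X) ↔ PF S (fun e => (chi (e 0 ∈ X) : M)) := hs.F_iff _
  rw [h0]
  constructor
  · intro hX
    have h1 : PB S (fun e : ℕ → M => (e 1 ∈ X ∧ e 0 = 1) ∨ (¬ e 1 ∈ X ∧ e 0 = 0)) :=
      ((PB.mem (PT.var 1) hX).and (PB.eq (PT.var 0) (PT.con 1))).or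
        ((PB.mem (PT.var 1) hX).not.and (PB.eq (PT.var 0) (PT.con 0)))
    refine h1.ps.congr fun e => ?_
    simp only [rest_apply, zero_add]
    by_cases hx : e 1 ∈ X
    · rw [show (chi (e 1 ∈ X) : M) = 1 from chi_eq_one.mpr hx]
      simp [hx]
    · rw [show (chi (e 1 ∈ X) : M) = 0 from chi_eq_zero.mpr hx]
      simp [hx]
  · intro hX
    have h1 := PS.subst hX (fun i => match i with
      | 0 => fun _ => (1 : M)
      | i + 1 => fun e => e i) (fun i => by
        cases i with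
        | zero => exact PT.con 1
        | succ i => exact PT.var i)
    have h2 := PS.subst hX (fun i => match i with
      | 0 => fun _ => (0 : M)
      | i + 1 => fun e => e i) (fun i => by
        cases i with
        | zero => exact PT.con 0
        | succ i => exact PT.var i)
    refine (h.mem_iff X).mpr ⟨h1.congr fun e => ?_, h2.congr fun e => ?_⟩
    · change (1 : M) = chi (e 0 ∈ X) ↔ e 0 ∈ X
      rw [eq_comm, chi_eq_one]
    · change (0 : M) = chi (e 0 ∈ X) ↔ ¬ e 0 ∈ X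
      rw [eq_comm, chi_eq_zero]

theorem SysOf.mem_of {s : Sys M} (hs : SysOf s S) (h : RCA0 M S) {p : M → Prop}
    (hp : FP s p) : {x | p x} ∈ S := (hs.mem_iff h _).mpr hp

/-- the tournament of the predicate `T` (`T (x, y)` for `x < y` means `x → y`) -/
def tour (T : M × M → Prop) : Set M :=
  {z | ∃ x y, pr x y = z ∧ ((x < y ∧ T (x, y)) ∨ (y < x ∧ ¬ T (y, x)))}

theorem mem_tour (T : M × M → Prop) (x y : M) :
    pr x y ∈ tour T ↔ (x < y ∧ T (x, y)) ∨ (y < x ∧ ¬ T (y, x)) := by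
  constructor
  · rintro ⟨x', y', h1, h2⟩
    obtain ⟨rfl, rfl⟩ := pr_inj h1
    exact h2
  · exact fun h => ⟨x, y, rfl, h⟩

theorem SysOf.tour_mem {s : Sys M} (hs : SysOf s S) (h : RCA0 M S) {T : M × M → Prop}
    (hT : FP s T) : tour T ∈ S := by
  have hl : FR s (fun z : M => s.lf z) := FR.of_mem s.lf_mem
  have hr : FR s (fun z : M => s.rt z) := FR.of_mem s.rt_mem
  have hp : FR s (fun z : M => s.pr (s.lf z) (s.rt z)) := s.pr_mem _ s.lf_mem _ s.rt_mem
  have h1 : FP s (fun z : M => s.pr (s.lf z) (s.rt z) = z ∧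
      ((s.lf z < s.rt z ∧ T (s.lf z, s.rt z)) ∨ (s.rt z < s.lf z ∧ ¬ T (s.rt z, s.lf z)))) :=
    (FP.eqM hp FR.id).and (((FP.lt hl hr).and (FP.comp hT (hl.pair hr))).or
      ((FP.lt hr hl).and (FP.comp hT (hr.pair hl)).not))
  refine (hs.mem_iff h _).mpr (h1.congr fun z => ?_)
  constructor
  · rintro ⟨x, y, h2, h3⟩
    rw [← hs.pr_eq] at h2
    rw [← h2, s.lf_pr, s.rt_pr]
    exact ⟨rfl, h3⟩
  · rintro ⟨h2, h3⟩
    rw [hs.pr_eq] at h2
    exact ⟨_, _, h2, h3⟩

/-- the Erdős-Moser theorem of the model, for predicates of the class -/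
theorem SysOf.em {s : Sys M} (hs : SysOf s S) (h : RCA0 M S) (hE : EM M S) (T : M × M → Prop)
    (hT : FP s T) : ∃ H : Set M, FP s (fun x : M => x ∈ H) ∧ Unb H ∧
      ∀ x ∈ H, ∀ y ∈ H, ∀ z ∈ H, x < y → y < z →
        (T (x, y) → T (y, z) → T (x, z)) ∧ (¬ T (x, y) → ¬ T (y, z) → ¬ T (x, z)) := by
  have hD : (Set.univ : Set M) ∈ S :=
    (hs.mem_iff h _).mpr ((FP.const True).congr fun x => by simp)
  obtain ⟨H, hH, -, h1, h2⟩ := hE Set.univ hD (fun m => ⟨m + 1, Set.mem_univ _, dsr_pos m⟩)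
    (tour T) (hs.tour_mem h hT)
    (by
      rintro z ⟨x, y, h1, -⟩
      exact ⟨x, Set.mem_univ _, y, Set.mem_univ _, h1.symm⟩)
    (by
      intro x _ h1
      rw [mem_tour] at h1
      rcases h1 with h1 | h1
      · exact lt_irrefl _ h1.1
      · exact lt_irrefl _ h1.1)
    (by
      intro x _ y _ hxy
      rw [mem_tour, mem_tour]
      rcases lt_or_gt_of_ne hxy with h1 | h1
      · have h2 : ¬ y < x := not_lt.mpr h1.le
        simp [h1, h2]
      · have h2 : ¬ x < y := not_lt.mpr h1.le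
        simp [h1, h2])
  refine ⟨H, (hs.mem_iff h _).mp hH, h1, fun x hx y hy z hz hxy hyz => ⟨fun h3 h4 => ?_,
    fun h3 h4 => ?_⟩⟩
  · have h5 := h2 x hx y hy z hz ((mem_tour T x y).mpr (Or.inl ⟨hxy, h3⟩))
      ((mem_tour T y z).mpr (Or.inl ⟨hyz, h4⟩))
    rcases (mem_tour T x z).mp h5 with h6 | h6
    · exact h6.2
    · exact absurd (hxy.trans hyz) (not_lt.mpr h6.1.le)
  · have h5 := h2 z hz y hy x hx ((mem_tour T z y).mpr (Or.inr ⟨hyz, h4⟩))
      ((mem_tour T y x).mpr (Or.inr ⟨hxy, h3⟩))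
    rcases (mem_tour T z x).mp h5 with h6 | h6
    · exact absurd (hxy.trans hyz) (not_lt.mpr h6.1.le)
    · exact h6.2

/-- the rows of a set of the model -/
theorem SysOf.rows {s : Sys M} (hs : SysOf s S) (h : RCA0 M S) {R : Set M} (hR : R ∈ S) :
    FP s (fun q : M × M => pr q.1 q.2 ∈ R) := by
  have h1 := (hs.mem_iff h R).mp hR
  have h2 : FR s (fun q : M × M => s.pr q.1 q.2) := s.pr_mem _ s.lf_mem _ s.rt_mem
  exact (FP.comp h1 h2).congr fun q => by rw [hs.pr_eq]

end Pool.Agent.Lib.MP_531058_lc.RCA
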