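import Pool.Agent.Lib.MP_531058_lc.RCA.Brg
import Pool.Agent.Lib.MP_531058_lc.EMC.Base

/-!
# From the core theorem over the interface to models of `RCA₀`
-/

set_option linter.unusedSectionVars false

namespace Pool.Agent.Lib.MP_531058_lc.RCA

universe u

variable {M : Type u} [DSR M] {S : Set (Set M)}

theorem SysOf.ems {s : Sys M} (hs : SysOf s S) (h : RCA0 M S) (hE : EM M S) : EMC.EMS s := by
  intro T hT
  obtain ⟨H, h1, h2, h3⟩ := hs.em h hE T hT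
  refine ⟨H, h1, fun N => ?_, fun x hx y hy z hz hxy hyz => ?_⟩
  · obtain ⟨y, hy, hN⟩ := h2 N
    exact ⟨y, hy, hN.le⟩
  · obtain ⟨h4, h5⟩ := h3 x hx y hy z hz hxy hyz
    exact ⟨fun ⟨a, b, c⟩ => c (h4 a b), fun ⟨a, b, c⟩ => h5 a b c⟩

theorem SysOf.coh {s : Sys M} (hs : SysOf s S) (h : RCA0 M S) (hC : EMC.COHS s) : COH M S := by
  intro R hR
  obtain ⟨C, h1, h2, h3⟩ := hC (fun q => pr q.1 q.2 ∈ R) (hs.rows h hR)
  refine ⟨C, (hs.mem_iff h C).mpr h1, fun m => ?_, fun i => ?_⟩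
  · obtain ⟨y, hy, hN⟩ := h2 (m + 1)
    exact ⟨y, hy, lt_of_lt_of_le (dsr_pos m) hN⟩
  · rcases h3 i with ⟨N, hN⟩ | ⟨N, hN⟩
    · exact Or.inl ⟨N, fun x hx hb => hN x hx hb.le⟩
    · exact Or.inr ⟨N, fun x hx hb => hN x hx hb.le⟩

end Pool.Agent.Lib.MP_531058_lc.RCA
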