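import Pool.Agent.Lib.MP_531058_lc.RCA.Sys

/-!
# Goedel coding of bounded sets, algebraic part

`exists_code`: for every predicate `P` and every bound `k` there are `a ≠ 0` and `b` with
`1 + (z + 1) * b ∣ a ↔ P z` for all `z < k`, provided that induction is available for two concrete
`Σ⁰₁` predicates. No primes: the coprimality is an explicit identity.
-/

namespace Pool.Agent.Lib.MP_531058_lc.RCA

universe u

variable {M : Type u} [DSR M]

theorem CodAlg.pos_iff {a : M} : 0 < a ↔ a ≠ 0 := pos_iff_ne_zero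

theorem CodAlg.dvd_of_add {p a b : M} (hp : p ≠ 0) (ha : p ∣ a) (hab : p ∣ a + b) : p ∣ b := by
  obtain ⟨s, rfl⟩ := ha
  obtain ⟨t, ht⟩ := hab
  rcases le_total s t with h | h
  · obtain ⟨r, rfl⟩ := exists_add_of_le h
    refine ⟨r, ?_⟩
    rw [mul_add] at ht
    exact add_left_cancel ht
  · obtain ⟨r, rfl⟩ := exists_add_of_le h
    rw [mul_add, add_assoc] at ht
    have h0 : p * r + b = 0 := by
      have : p * t + (p * r + b) = p * t + 0 := by rw [ht, add_zero]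
      exact add_left_cancel this
    have hb : b = 0 := by
      have := le_add_self (a := b) (b := p * r)
      rw [h0] at this
      exact le_antisymm this zero_le
    rw [hb]; exact dvd_zero p

/-- coprimality of two moduli, smaller index dividing -/
theorem CodAlg.cop_lt {m d x n : M} (hd : d ∣ m)
    (h : 1 + (x + 1) * m ∣ n * (1 + (x + d + 1) * m)) : 1 + (x + 1) * m ∣ n := by
  obtain ⟨m', rfl⟩ := hd
  have hp : (1 + (x + 1) * (d * m') : M) ≠ 0 := by
    have : (0 : M) < 1 + (x + 1) * (d * m') := lt_of_lt_of_le one_pos le_self_add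
    exact this.ne'
  -- A p + 1 = B q + p
  have key : (x + 1) * m' * (x + d + 1) * (1 + (x + 1) * (d * m')) * n + n =
      (x + 1) * (x + 1) * m' * (n * (1 + (x + d + 1) * (d * m'))) + (1 + (x + 1) * (d * m')) * n := by
    ring
  refine CodAlg.dvd_of_add hp (a := (x + 1) * m' * (x + d + 1) * (1 + (x + 1) * (d * m')) * n) ?_ ?_
  · exact Dvd.intro_left ((x + 1) * m' * (x + d + 1) * n) (by ring)
  · rw [key]
    exact dvd_add (dvd_mul_of_dvd_right h _) (dvd_mul_right _ _)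

/-- coprimality of two moduli, larger index dividing -/
theorem CodAlg.cop_gt {m d c n : M} (hd : d ∣ m)
    (h : 1 + (c + d + 1) * m ∣ n * (1 + (c + 1) * m)) : 1 + (c + d + 1) * m ∣ n := by
  obtain ⟨m', rfl⟩ := hd
  have hp : (1 + (c + d + 1) * (d * m') : M) ≠ 0 := by
    have : (0 : M) < 1 + (c + d + 1) * (d * m') := lt_of_lt_of_le one_pos le_self_add
    exact this.ne'
  have key : (c + d + 1) * (c + d + 1) * m' * (n * (1 + (c + 1) * (d * m'))) + n =
      ((c + d + 1) * m' * (c + 1) * n + n) * (1 + (c + d + 1) * (d * m')) := by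
    ring
  refine CodAlg.dvd_of_add hp (a := (c + d + 1) * (c + d + 1) * m' * (n * (1 + (c + 1) * (d * m')))) ?_ ?_
  · exact dvd_mul_of_dvd_right h _
  · rw [key]; exact dvd_mul_left _ _

theorem CodAlg.cop {m x c k n : M} (hm : ∀ d : M, d ≠ 0 → d ≤ k → d ∣ m) (hx : x ≤ k) (hc : c ≤ k)
    (hxc : x ≠ c) (h : 1 + (x + 1) * m ∣ n * (1 + (c + 1) * m)) : 1 + (x + 1) * m ∣ n := by
  rcases lt_or_gt_of_ne hxc with hlt | hlt
  · obtain ⟨d, rfl⟩ := exists_add_of_le hlt.le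
    have hd0 : d ≠ 0 := by rintro rfl; simp at hxc
    have hdk : d ≤ k := le_trans le_add_self hc
    exact CodAlg.cop_lt (hm d hd0 hdk) h
  · obtain ⟨d, rfl⟩ := exists_add_of_le hlt.le
    have hd0 : d ≠ 0 := by rintro rfl; simp at hxc
    have hdk : d ≤ k := le_trans le_add_self hx
    exact CodAlg.cop_gt (hm d hd0 hdk) h

/-- existence of a common multiple of `1, ..., n` -/
def CodPhi1 (n : M) : Prop := ∃ b : M, b ≠ 0 ∧ ∀ d : M, d ≤ n → d ≠ 0 → d ∣ b

/-- existence of a code of `{z < k : z < j and P z}` with the parameter `b` -/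
def CodPhi2 (P : M → Prop) (k b j : M) : Prop :=
  ∃ a : M, a ≠ 0 ∧ ∀ z : M, z < k → (1 + (z + 1) * b ∣ a ↔ z < j ∧ P z)

theorem CodAlg.le_succ {a b : M} : a ≤ b + 1 ↔ a ≤ b ∨ a = b + 1 := by
  constructor
  · intro h
    rcases lt_or_eq_of_le h with h | h
    · left
      by_contra hc
      exact absurd (lt_of_lt_of_le h (DSR.succ_le_of_lt b a (not_le.1 hc))) (lt_irrefl _)
    · right; exact h
  · rintro (h | h)
    · exact h.trans (lt_add_one b).le
    · exact h.le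

theorem CodAlg.lt_succ {a b : M} : a < b + 1 ↔ a < b ∨ a = b := by
  constructor
  · intro h
    rcases lt_or_ge b a with h' | h'
    · exact absurd (lt_of_lt_of_le h (DSR.succ_le_of_lt b a h')) (lt_irrefl _)
    · exact lt_or_eq_of_le h'
  · rintro (h | rfl)
    · exact h.trans (lt_add_one b)
    · exact lt_add_one a

theorem CodAlg.phi1_zero : CodPhi1 (0 : M) :=
  ⟨1, one_ne_zero, fun _ hd h0 => absurd (le_antisymm hd zero_le) h0⟩

theorem CodAlg.phi1_succ (n : M) (h : CodPhi1 n) : CodPhi1 (n + 1) := by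
  obtain ⟨b, hb, hd⟩ := h
  have hn : (n + 1 : M) ≠ 0 := (lt_of_le_of_lt zero_le (lt_add_one n)).ne'
  refine ⟨b * (n + 1), mul_ne_zero hb hn, fun d hdn hd0 => ?_⟩
  rcases CodAlg.le_succ.1 hdn with h | h
  · exact dvd_mul_of_dvd_left (hd d h hd0) _
  · rw [h]; exact dvd_mul_left _ _

theorem CodAlg.phi2_zero (P : M → Prop) (k b : M) (hb : b ≠ 0) : CodPhi2 P k b 0 := by
  refine ⟨1, one_ne_zero, fun z _ => ⟨fun h => ?_, fun h => absurd h.1 (not_lt.2 zero_le)⟩⟩
  obtain ⟨c, hc⟩ := h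
  exfalso
  have hc0 : c ≠ 0 := by rintro rfl; simp at hc
  have hc1 : 1 ≤ c := by
    have := DSR.succ_le_of_lt 0 c (pos_iff_ne_zero.2 hc0)
    simpa using this
  have hbp : 0 < b := pos_iff_ne_zero.2 hb
  have h1 : (1 : M) < 1 + (z + 1) * b :=
    lt_add_of_pos_right _ (mul_pos (lt_of_le_of_lt zero_le (lt_add_one z)) hbp)
  have h2 : (1 + (z + 1) * b) * 1 ≤ (1 + (z + 1) * b) * c :=
    mul_le_mul_of_nonneg_left hc1 zero_le
  rw [← hc, mul_one] at h2
  exact absurd h1 (not_lt.2 h2)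

theorem CodAlg.phi2_succ (P : M → Prop) (k b j : M) (hd : ∀ d : M, d ≤ k → d ≠ 0 → d ∣ b)
    (h : CodPhi2 P k b j) : CodPhi2 P k b (j + 1) := by
  obtain ⟨a, ha, hz⟩ := h
  by_cases hj : j < k ∧ P j
  · have hq : (1 + (j + 1) * b : M) ≠ 0 := (lt_of_lt_of_le one_pos le_self_add).ne'
    refine ⟨a * (1 + (j + 1) * b), mul_ne_zero ha hq, fun z hzk => ?_⟩
    by_cases hzj : z = j
    · subst hzj
      exact ⟨fun _ => ⟨lt_add_one z, hj.2⟩, fun _ => dvd_mul_left _ _⟩
    · constructor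
      · intro h1
        have h2 := CodAlg.cop (k := k) (fun d h0 hdk => hd d hdk h0) hzk.le hj.1.le hzj h1
        have h3 := (hz z hzk).1 h2
        exact ⟨CodAlg.lt_succ.2 (Or.inl h3.1), h3.2⟩
      · rintro ⟨h1, h2⟩
        rcases CodAlg.lt_succ.1 h1 with h1 | h1
        · exact dvd_mul_of_dvd_left ((hz z hzk).2 ⟨h1, h2⟩) _
        · exact absurd h1 hzj
  · refine ⟨a, ha, fun z hzk => (hz z hzk).trans ⟨fun h => ⟨CodAlg.lt_succ.2 (Or.inl h.1), h.2⟩, ?_⟩⟩
    rintro ⟨h1, h2⟩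
    rcases CodAlg.lt_succ.1 h1 with h1 | h1
    · exact ⟨h1, h2⟩
    · subst h1; exact absurd ⟨hzk, h2⟩ hj

/-- codes exist, given induction for the two `Σ⁰₁` predicates -/
theorem exists_code (P : M → Prop) (k : M)
    (ind1 : CodPhi1 (0 : M) → (∀ n : M, CodPhi1 n → CodPhi1 (n + 1)) → ∀ n : M, CodPhi1 n)
    (ind2 : ∀ b : M, CodPhi2 P k b 0 → (∀ j : M, CodPhi2 P k b j → CodPhi2 P k b (j + 1)) →
      ∀ j : M, CodPhi2 P k b j) :
    ∃ a b : M, a ≠ 0 ∧ b ≠ 0 ∧ ∀ z : M, z < k → (1 + (z + 1) * b ∣ a ↔ P z) := by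
  obtain ⟨b, hb, hd⟩ := ind1 CodAlg.phi1_zero CodAlg.phi1_succ k
  obtain ⟨a, ha, hz⟩ := ind2 b (CodAlg.phi2_zero P k b hb)
    (fun j hj => CodAlg.phi2_succ P k b j hd hj) k
  exact ⟨a, b, ha, hb, fun z hzk => (hz z hzk).trans ⟨fun h => h.2, fun h => ⟨hzk, h⟩⟩⟩

/-- divisibility by a bounded quantifier -/
theorem dvd_iff_bex {p a : M} (ha : a ≠ 0) : p ∣ a ↔ ∃ c, c < a + 1 ∧ a = p * c := by
  constructor
  · rintro ⟨c, hc⟩
    refine ⟨c, ?_, hc⟩
    have hp : p ≠ 0 := by rintro rfl; exact ha (by rw [hc, zero_mul])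
    have h1 : 1 ≤ p := by
      have := DSR.succ_le_of_lt 0 p (pos_iff_ne_zero.2 hp)
      simpa using this
    have h2 : 1 * c ≤ p * c := mul_le_mul_of_nonneg_right h1 zero_le
    rw [one_mul, ← hc] at h2
    exact lt_of_le_of_lt h2 (lt_add_one a)
  · rintro ⟨c, _, hc⟩; exact ⟨c, hc⟩

end Pool.Agent.Lib.MP_531058_lc.RCA
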