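import Pool.Agent.Lib.MP_531058_lc.RCA.PSC
import Pool.Agent.Lib.MP_531058_lc.RCA.CodAlg

/-!
# Goedel coding of bounded sets in a model of `RCA₀`

`RCA0.code`: for every `Σ⁰₀` predicate and every bound `k` there are `a ≠ 0` and `b ≠ 0` with
`1 + (z + 1) * b ∣ a ↔ P z` for `z < k`. `RCA0.code1`: the same for a predicate that is `Σ⁰₁` with `Σ⁰₁`
complement (through comprehension).
-/

set_option linter.unusedSectionVars false

namespace Pool.Agent.Lib.MP_531058_lc.RCA

universe u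

variable {M : Type u} [DSR M] {S : Set (Set M)}

theorem PT.tl' {f : (ℕ → M) → M} (hf : PT f) : PT (fun e => f (rest e)) := by
  obtain ⟨t, ht⟩ := hf
  exact ⟨t.subst (fun n => .var (n + 1)), fun e => by rw [Tm.val_subst, ht]; rfl⟩

/-- divisibility is `Σ⁰₀` -/
theorem PB.dvd {f g : (ℕ → M) → M} (hf : PT f) (hg : PT g) : PB S (fun e => f e ∣ g e) := by
  have h1 : PB S (fun e : ℕ → M => g (rest e) = f (rest e) * e 0) :=
    PB.eq hg.tl' (hf.tl'.mul (PT.var 0))
  have h2 := h1.ex (hg.add (PT.con 1))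
  have h3 := (PB.eq hg (PT.con 0)).or h2
  refine h3.congr fun e => ?_
  simp only [rest_cons, cons_zero]
  by_cases h0 : g e = 0
  · simp [h0]
  · rw [dvd_iff_bex h0]
    constructor
    · rintro (h | h)
      · exact absurd h h0
      · exact h
    · exact Or.inr

/-- codes of bounded `Σ⁰₀` sets -/
theorem RCA0.code (h : RCA0 M S) {P : (ℕ → M) → Prop} (hP : PB S P) (e : ℕ → M) (k : M) :
    ∃ a b : M, a ≠ 0 ∧ b ≠ 0 ∧ ∀ z : M, z < k → (1 + (z + 1) * b ∣ a ↔ P (cons z e)) := by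
  refine exists_code (fun z => P (cons z e)) k ?_ ?_
  · intro h0 h1 n
    have hQ : PB S (fun e' : ℕ → M => e' 0 ≠ 0 ∧ ∀ d, d < e' 1 + 1 → d ≠ 0 → d ∣ e' 0) := by
      have q1 : PB S (fun e' : ℕ → M => e' 0 ≠ 0 → e' 0 ∣ e' 1) :=
        (PB.eq (PT.var 0) (PT.con 0)).not.imp (PB.dvd (PT.var 0) (PT.var 1))
      exact ((PB.eq (PT.var 0) (PT.con 0)).not).and
        ((q1.all ((PT.var 1).add (PT.con 1))).congr fun e' => Iff.rfl)
    have hS : PS S (fun e' : ℕ → M => CodPhi1 (e' 0)) := by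
      refine hQ.ps.ex.congr fun e' => ?_
      refine exists_congr fun b => and_congr_right fun _ => forall_congr' fun d => ?_
      show (d < e' 0 + 1 → _) ↔ _
      rw [dsr_lt_succ]; rfl
    exact h.ind hS e h0 h1 n
  · intro b h0 h1 n
    have hQ : PB S (fun e' : ℕ → M => e' 0 ≠ 0 ∧ ∀ z, z < k →
        (1 + (z + 1) * b ∣ e' 0 ↔ z < e' 1 ∧ P (cons z (rest (rest e'))))) := by
      have q1 : PB S (fun e' : ℕ → M => (1 + (e' 0 + 1) * b ∣ e' 1 ↔
          e' 0 < e' 2 ∧ P (cons (e' 0) (rest (rest (rest e')))))) := by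
        refine PB.iff (PB.dvd ?_ (PT.var 1)) ((PB.lt (PT.var 0) (PT.var 2)).and ?_)
        · exact (PT.con 1).add (((PT.var 0).add (PT.con 1)).mul (PT.con b))
        · refine (hP.ren (fun i => match i with
            | 0 => 0
            | i + 1 => i + 3)).congr fun e' => ?_
          have : (fun i => e' (match i with
            | 0 => 0
            | i + 1 => i + 3)) = cons (e' 0) (rest (rest (rest e'))) := by
            funext i
            cases i <;> rfl
          rw [this]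
      exact ((PB.eq (PT.var 0) (PT.con 0)).not).and ((q1.all (PT.con k)).congr fun e' => Iff.rfl)
    have hS : PS S (fun e' : ℕ → M => CodPhi2 (fun z => P (cons z (rest e'))) k b (e' 0)) :=
      hQ.ps.ex
    exact h.ind hS e h0 h1 n

/-- codes of bounded parts of sets of the model -/
theorem RCA0.code_mem (h : RCA0 M S) {X : Set M} (hX : X ∈ S) (k : M) :
    ∃ a b : M, a ≠ 0 ∧ b ≠ 0 ∧ ∀ z : M, z < k → (1 + (z + 1) * b ∣ a ↔ z ∈ X) :=
  h.code (P := fun e => e 0 ∈ X) (PB.mem (PT.var 0) hX) (fun _ => 0) k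

/-- codes of bounded parts of `Δ⁰₁` predicates -/
theorem RCA0.code1 (h : RCA0 M S) {P : (ℕ → M) → Prop} (hP : PS S P) (hP' : PS S (fun e => ¬ P e))
    (e : ℕ → M) (k : M) :
    ∃ a b : M, a ≠ 0 ∧ b ≠ 0 ∧ ∀ z : M, z < k → (1 + (z + 1) * b ∣ a ↔ P (cons z e)) :=
  h.code_mem (h.compr hP hP' e) k

end Pool.Agent.Lib.MP_531058_lc.RCA
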