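import Pool.Agent.Lib.MP_531058_lc.RCA.Prec

/-!
# The class of functions of a model of `RCA₀`
-/

namespace Pool.Agent.Lib.MP_531058_lc.RCA

universe u

variable {M : Type u} [DSR M] {S : Set (Set M)}

/-- the functions of a model of `RCA₀` -/
noncomputable def RCA0.sys (h : RCA0 M S) : Sys M where
  F := {f | PF S (fun e => f (e 0))}
  pr := pr
  lf := p1
  rt := p2
  lf_pr := p1_pr
  rt_pr := p2_pr
  left_le_pr := left_le_pr
  right_le_pr := right_le_pr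
  id_mem := (FF.iff h _).1 (FF.id_mem h)
  const_mem := fun c => (FF.iff h _).1 (FF.const_mem h c)
  comp_mem := fun f hf g hg =>
    (FF.iff h _).1 (FF.comp_mem h f ((FF.iff h _).2 hf) g ((FF.iff h _).2 hg))
  lf_mem := (FF.iff h _).1 (FF.p1_mem h)
  rt_mem := (FF.iff h _).1 (FF.p2_mem h)
  pr_mem := fun f hf g hg =>
    (FF.iff h _).1 (FF.pr_mem h f ((FF.iff h _).2 hf) g ((FF.iff h _).2 hg))
  add_mem := fun f hf g hg =>
    (FF.iff h _).1 (FF.add_mem h f ((FF.iff h _).2 hf) g ((FF.iff h _).2 hg))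
  mul_mem := fun f hf g hg =>
    (FF.iff h _).1 (FF.mul_mem h f ((FF.iff h _).2 hf) g ((FF.iff h _).2 hg))
  le_mem := fun f hf g hg =>
    (FF.iff h _).1 (FF.le_mem h f ((FF.iff h _).2 hf) g ((FF.iff h _).2 hg))
  ite_mem := fun c hc f hf g hg =>
    (FF.iff h _).1 (FF.ite_mem h c ((FF.iff h _).2 hc) f ((FF.iff h _).2 hf) g
      ((FF.iff h _).2 hg))
  ball_mem := fun c hc b hb =>
    (FF.iff h _).1 (FF.ball_mem h c ((FF.iff h _).2 hc) b ((FF.iff h _).2 hb))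
  prec := fun f hf g hg => by
    obtain ⟨r, hr, h1⟩ := FF.prec h f ((FF.iff h _).2 hf) g ((FF.iff h _).2 hg)
    exact ⟨r, (FF.iff h _).1 hr, h1⟩
  mu := fun c hc ht => by
    obtain ⟨r, hr, h1⟩ := FF.mu h c ((FF.iff h _).2 hc) ht
    exact ⟨r, (FF.iff h _).1 hr, h1⟩
  ind := fun c hc => FF.ind h c ((FF.iff h _).2 hc)

theorem RCA0.sys_F (h : RCA0 M S) : h.sys.F = {f | PF S (fun e => f (e 0))} := rfl

theorem RCA0.sys_pr (h : RCA0 M S) : h.sys.pr = pr := rfl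

theorem RCA0.sys_lf (h : RCA0 M S) : h.sys.lf = p1 := rfl

theorem RCA0.sys_rt (h : RCA0 M S) : h.sys.rt = p2 := rfl

theorem RCA0.mem_sys (h : RCA0 M S) (f : M → M) : f ∈ h.sys.F ↔ PF S (fun e => f (e 0)) := Iff.rfl

end Pool.Agent.Lib.MP_531058_lc.RCA
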