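import Pool.Agent.Lib.MP_531058_lc.RCA.Brg2
import Pool.Agent.Lib.MP_531058_lc.RCA.Inst

/-!
# From the core theorem to `RCA₀ + EM ⊢ COH`
-/

namespace Pool.Agent.Lib.MP_531058_lc.RCA

universe u

theorem fin_dsr (core : ∀ (M : Type u) [DSR M] (s : Sys M), EMC.EMS s → EMC.COHS s)
    {M : Type u} [DSR M] {S : Set (Set M)} (h : RCA0 M S) (hE : EM M S) : COH M S := by
  have hs : SysOf h.sys S := ⟨fun _ => Iff.rfl, fun _ _ => rfl⟩
  exact hs.coh h (core M h.sys (hs.ems h hE))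

theorem fin_rca (core : ∀ (M : Type u) [DSR M] (s : Sys M), EMC.EMS s → EMC.COHS s)
    {M : Type u} [Zero M] [One M] [Add M] [Mul M] [LT M] (S : Set (Set M)) (h : RCA0 M S)
    (hE : EM M S) : COH M S := by
  letI : DSR M := h.dsr
  exact fin_dsr core (M := M) (S := S) h hE

end Pool.Agent.Lib.MP_531058_lc.RCA
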