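import Pool.Agent.Lib.MP_531058_lc.RCA.Pair
import Pool.Agent.Lib.MP_531058_lc.RCA.Cod

/-!
# The functions of a model of `RCA₀`

`FF S`: the functions whose graph is in `S`. Closure under composition, pairing, sum, product, comparison,
definition by cases, bounded quantifiers and minimisation.
-/

namespace Pool.Agent.Lib.MP_531058_lc.RCA

universe u

variable {M : Type u} [DSR M] {S : Set (Set M)}

/-- the functions whose graph is in `S` -/
def FF (S : Set (Set M)) : Set (M → M) := {f | {w | ∃ x, w = pr x (f x)} ∈ S}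

theorem left_le_prM (x y : M) : x ≤ pr x y := by
  unfold pr
  exact le_add_self

theorem right_le_prM (x y : M) : y ≤ pr x y := by
  unfold pr
  rcases eq_or_ne (x + y) 0 with h | h
  · have hy : y = 0 := (add_eq_zero.1 h).2
    rw [hy]; exact zero_le
  · have h1 : (1 : M) ≤ x + y := by
      have := DSR.succ_le_of_lt 0 (x + y) (pos_iff_ne_zero.2 h)
      rwa [zero_add] at this
    calc y ≤ x + y := le_add_self
      _ = (x + y) * 1 := (mul_one _).symm
      _ ≤ (x + y) * (x + y) := mul_le_mul_right h1 _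
      _ ≤ (x + y) * (x + y) + x := le_self_add

theorem lt_add_one_iffM {a b : M} : a < b + 1 ↔ a ≤ b := by
  constructor
  · intro h
    by_contra h'
    exact absurd (lt_of_lt_of_le h (DSR.succ_le_of_lt b a (not_le.1 h'))) (lt_irrefl _)
  · intro h
    exact lt_of_le_of_lt h (lt_add_one b)

theorem PB.le {f g : (ℕ → M) → M} (hf : PT f) (hg : PT g) : PB S (fun e => f e ≤ g e) :=
  (PB.not (PB.lt hg hf)).congr fun e => by simp

/-- the graph of a function of the model is bounded definable -/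
theorem FF.pb (_h : RCA0 M S) {f : M → M} (hf : f ∈ FF S) {g t : (ℕ → M) → M} (hg : PT g)
    (ht : PT t) : PB S (fun e => g e = f (t e)) :=
  (PB.mem (ht.pr hg) hf).congr fun e => by
    show (∃ x, pr (t e) (g e) = pr x (f x)) ↔ _
    constructor
    · rintro ⟨x, hx⟩
      obtain ⟨h1, h2⟩ := pr_inj hx
      rw [h2, ← h1]
    · intro he
      exact ⟨t e, by rw [he]⟩

/-- comprehension for a pair of `Σ⁰₁` predicates which are complementary at the given parameters -/
theorem RCA0.compr' (h : RCA0 M S) {P Q : (ℕ → M) → Prop} (hP : PS S P) (hQ : PS S Q) (e : ℕ → M)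
    (hPQ : ∀ n, ¬ P (cons n e) ↔ Q (cons n e)) : {n | P (cons n e)} ∈ S := by
  obtain ⟨P', ⟨φ, hφ⟩, hP'⟩ := hP
  obtain ⟨Q', ⟨ψ, hψ⟩, hQ'⟩ := hQ
  have key := h.comprehension φ (.neg ψ) e
  simp only [hφ, ← hP', Bd.sat, hψ] at key
  apply key
  intro n
  rw [← not_iff_not, hPQ n, hQ']
  push Not
  rfl

/-- a function with `Σ⁰₁` graph is a function of the model -/
theorem FF.of_ps (h : RCA0 M S) {f : M → M} (e0 : ℕ → M) {P : (ℕ → M) → Prop} (hP : PS S P)
    (hf : ∀ x y, P (cons y (cons x e0)) ↔ y = f x) : f ∈ FF S := by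
  -- `A e`: `e 0` is the code of a pair `(x, y)` with `P (y, x, ...)`
  have hA : PS S (fun e => ∃ x, ∃ y, e 0 = pr x y ∧ P (cons y (cons x fun n => e (n + 1)))) := by
    have h1 : PS S (fun e => P (cons (e 0) (cons (e 1) fun n => e (n + 3)))) :=
      PS.subst hP (fun i e => cons (e 0) (cons (e 1) fun n => e (n + 3)) i) fun i => by
        rcases i with _ | _ | i
        · exact PT.var 0
        · exact PT.var 1
        · exact PT.var (i + 3)
    exact PS.ex (PS.ex (PS.and (PB.ps (PB.eq (PT.var 2) ((PT.var 1).pr (PT.var 0)))) h1))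
  have hB : PS S (fun e => ∀ x, x < e 0 + 1 → ∀ y, y < e 0 + 1 → (e 0 = pr x y →
      ∃ z, P (cons z (cons x fun n => e (n + 1))) ∧ z ≠ y)) := by
    have h1 : PS S (fun e => P (cons (e 0) (cons (e 2) fun n => e (n + 4)))) :=
      PS.subst hP (fun i e => cons (e 0) (cons (e 2) fun n => e (n + 4)) i) fun i => by
        rcases i with _ | _ | i
        · exact PT.var 0
        · exact PT.var 2
        · exact PT.var (i + 4)
    have h2 : PS S (fun e => ¬ (e 2 = pr (e 1) (e 0)) ∨
        ∃ z, P (cons z (cons (e 1) fun n => e (n + 3))) ∧ z ≠ e 0) :=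
      PS.or (PB.ps (PB.not (PB.eq (PT.var 2) ((PT.var 1).pr (PT.var 0)))))
        (PS.ex (PS.and h1 (PB.ps (PB.not (PB.eq (PT.var 0) (PT.var 1))))))
    have h3 := PS.all h (PS.all h h2 (f := fun e => e 1 + 1) ((PT.var 1).add (PT.con 1)))
      (f := fun e => e 0 + 1) ((PT.var 0).add (PT.con 1))
    refine h3.congr fun e => ?_
    refine forall_congr' fun x => forall_congr' fun _ => forall_congr' fun y =>
      forall_congr' fun _ => ?_
    exact imp_iff_not_or.symm
  have hAB : ∀ n : M, ¬ (∃ x, ∃ y, n = pr x y ∧ P (cons y (cons x e0))) ↔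
      ∀ x, x < n + 1 → ∀ y, y < n + 1 → (n = pr x y → ∃ z, P (cons z (cons x e0)) ∧ z ≠ y) := by
    intro n
    constructor
    · intro h1 x _ y _ h2
      refine ⟨f x, (hf x (f x)).2 rfl, fun h3 => h1 ⟨x, y, h2, (hf x y).2 h3.symm⟩⟩
    · rintro h1 ⟨x, y, h2, h3⟩
      obtain ⟨z, hz, hzy⟩ := h1 x (lt_add_one_iffM.2 (h2 ▸ left_le_prM x y)) y
        (lt_add_one_iffM.2 (h2 ▸ right_le_prM x y)) h2
      exact hzy (((hf x z).1 hz).trans ((hf x y).1 h3).symm)
  have h5 := h.compr' hA hB e0 hAB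
  have h6 : {w | ∃ x, w = pr x (f x)} =
      {n : M | ∃ x, ∃ y, n = pr x y ∧ P (cons y (cons x e0))} := by
    ext w
    constructor
    · rintro ⟨x, hx⟩
      exact ⟨x, f x, hx, (hf x (f x)).2 rfl⟩
    · rintro ⟨x, y, hx, hy⟩
      exact ⟨x, by rw [hx, (hf x y).1 hy]⟩
  show {w | ∃ x, w = pr x (f x)} ∈ S
  rw [h6]
  exact h5

end Pool.Agent.Lib.MP_531058_lc.RCA
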