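import Pool.Agent.Lib.MP_531058_lc.RCA.Inst1

/-!
# Closure of the class of functions of a model of `RCA₀`
-/

namespace Pool.Agent.Lib.MP_531058_lc.RCA

universe u

variable {M : Type u} [DSR M] {S : Set (Set M)}

/-- a function with bounded definable graph is a function of the model -/
theorem FF.of_pb (h : RCA0 M S) {f : M → M} (e0 : ℕ → M) {P : (ℕ → M) → Prop} (hP : PB S P)
    (hf : ∀ x y, P (cons y (cons x e0)) ↔ y = f x) : f ∈ FF S := FF.of_ps h e0 (PB.ps hP) hf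

theorem FF.id_mem (h : RCA0 M S) : (fun x : M => x) ∈ FF S :=
  FF.of_pb h (fun _ => 0) (PB.eq (PT.var 0) (PT.var 1)) fun _ _ => Iff.rfl

theorem FF.const_mem (h : RCA0 M S) (c : M) : (fun _ : M => c) ∈ FF S :=
  FF.of_pb h (fun _ => 0) (PB.eq (PT.var 0) (PT.con c)) fun _ _ => Iff.rfl

theorem FF.comp_mem (h : RCA0 M S) (f : M → M) (hf : f ∈ FF S) (g : M → M) (hg : g ∈ FF S) :
    (fun x => f (g x)) ∈ FF S := by
  refine FF.of_ps h (fun _ => 0) (P := fun e => ∃ z, z = g (e 1) ∧ e 0 = f z)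
    (PS.ex (PB.ps ((FF.pb h hg (PT.var 0) (PT.var 2)).and (FF.pb h hf (PT.var 1) (PT.var 0)))))
    fun x y => ?_
  constructor
  · rintro ⟨z, rfl, hz⟩
    exact hz
  · intro hy
    exact ⟨g x, rfl, hy⟩

/-- closure under a binary operation with bounded definable graph -/
theorem FF.comp₂ (h : RCA0 M S) (f : M → M) (hf : f ∈ FF S) (g : M → M) (hg : g ∈ FF S)
    (o : M → M → M) (ho : PB S fun e => e 0 = o (e 1) (e 2)) : (fun x => o (f x) (g x)) ∈ FF S := by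
  have ho' : PB S fun e => e 2 = o (e 0) (e 1) :=
    ho.subst (fun i e => cons (e 2) (cons (e 0) (cons (e 1) fun n => e (n + 3))) i)
      fun i => by
        rcases i with _ | _ | _ | i
        · exact PT.var 2
        · exact PT.var 0
        · exact PT.var 1
        · exact PT.var (i + 3)
  refine FF.of_ps h (fun _ => 0)
    (P := fun e => ∃ b, ∃ a, (a = f (e 1) ∧ b = g (e 1)) ∧ e 0 = o a b)
    (PS.ex (PS.ex (PB.ps (((FF.pb h hf (PT.var 0) (PT.var 3)).and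
      (FF.pb h hg (PT.var 1) (PT.var 3))).and ho')))) fun x y => ?_
  constructor
  · rintro ⟨b, a, ⟨rfl, rfl⟩, hz⟩
    exact hz
  · intro hy
    exact ⟨g x, f x, ⟨rfl, rfl⟩, hy⟩

theorem FF.pr_mem (h : RCA0 M S) (f : M → M) (hf : f ∈ FF S) (g : M → M) (hg : g ∈ FF S) :
    (fun x => pr (f x) (g x)) ∈ FF S :=
  FF.comp₂ h f hf g hg pr (PB.eq (PT.var 0) ((PT.var 1).pr (PT.var 2)))

theorem FF.add_mem (h : RCA0 M S) (f : M → M) (hf : f ∈ FF S) (g : M → M) (hg : g ∈ FF S) :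
    (fun x => f x + g x) ∈ FF S :=
  FF.comp₂ h f hf g hg (fun a b => a + b) (PB.eq (PT.var 0) ((PT.var 1).add (PT.var 2)))

theorem FF.mul_mem (h : RCA0 M S) (f : M → M) (hf : f ∈ FF S) (g : M → M) (hg : g ∈ FF S) :
    (fun x => f x * g x) ∈ FF S :=
  FF.comp₂ h f hf g hg (fun a b => a * b) (PB.eq (PT.var 0) ((PT.var 1).mul (PT.var 2)))

/-- graph of a characteristic value -/
theorem eq_chi {y : M} {p : Prop} : y = chi p ↔ (p ∧ y = 1) ∨ (¬ p ∧ y = 0) := by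
  by_cases hp : p
  · rw [chi_eq_one.2 hp]; simp [hp]
  · rw [chi_eq_zero.2 hp]; simp [hp]

omit [DSR M] in
/-- graph of a selection -/
theorem eq_sel {y a b : M} {p : Prop} : y = sel p a b ↔ (p ∧ y = a) ∨ (¬ p ∧ y = b) := by
  by_cases hp : p
  · rw [sel_pos hp]; simp [hp]
  · rw [sel_neg hp]; simp [hp]

theorem FF.le_mem (h : RCA0 M S) (f : M → M) (hf : f ∈ FF S) (g : M → M) (hg : g ∈ FF S) :
    (fun x => (chi (f x ≤ g x) : M)) ∈ FF S :=
  FF.comp₂ h f hf g hg (fun a b => chi (a ≤ b))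
    ((((PB.le (PT.var 1) (PT.var 2)).and (PB.eq (PT.var 0) (PT.con 1))).or
      ((PB.le (PT.var 1) (PT.var 2)).not.and (PB.eq (PT.var 0) (PT.con 0)))).congr
        fun _ => eq_chi.symm)

theorem FF.ite_mem (h : RCA0 M S) (c : M → M) (hc : c ∈ FF S) (f : M → M) (hf : f ∈ FF S)
    (g : M → M) (hg : g ∈ FF S) : (fun x => sel (c x = 0) (f x) (g x)) ∈ FF S := by
  refine FF.of_pb h (fun _ => 0)
    (((FF.pb h hc (PT.con 0) (PT.var 1)).and (FF.pb h hf (PT.var 0) (PT.var 1))).or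
      ((FF.pb h hc (PT.con 0) (PT.var 1)).not.and (FF.pb h hg (PT.var 0) (PT.var 1))))
    fun x y => ?_
  rw [eq_sel, eq_comm (a := c x)]
  rfl

theorem FF.ball_mem (h : RCA0 M S) (c : M → M) (hc : c ∈ FF S) (b : M → M) (hb : b ∈ FF S) :
    (fun x => (chi (∀ i < b x, c (pr x i) = 0) : M)) ∈ FF S := by
  have hA : PB S fun e => ∀ i, i < e 0 → (0 : M) = c (pr (e 2) i) :=
    (FF.pb h hc (PT.con 0) ((PT.var 3).pr (PT.var 0))).all (PT.var 0)
  refine FF.of_ps h (fun _ => 0)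
    (P := fun e => ∃ B, B = b (e 1) ∧
      (((∀ i, i < B → (0 : M) = c (pr (e 1) i)) ∧ e 0 = 1) ∨
        (¬ (∀ i, i < B → (0 : M) = c (pr (e 1) i)) ∧ e 0 = 0)))
    (PS.ex (PB.ps ((FF.pb h hb (PT.var 0) (PT.var 2)).and
      ((hA.and (PB.eq (PT.var 1) (PT.con 1))).or
        (hA.not.and (PB.eq (PT.var 1) (PT.con 0))))))) fun x y => ?_
  have e1 : (∀ i, i < b x → (0 : M) = c (pr x i)) ↔ ∀ i < b x, c (pr x i) = 0 :=
    forall_congr' fun i => forall_congr' fun _ => eq_comm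
  rw [eq_chi, ← e1]
  constructor
  · rintro ⟨B, rfl, hz⟩
    exact hz
  · intro hy
    exact ⟨b x, rfl, hy⟩

/-- induction for sets of the model -/
theorem FF.ind (h : RCA0 M S) (c : M → M) (hc : c ∈ FF S) (h0 : c 0 = 0)
    (h1 : ∀ n, c n = 0 → c (n + 1) = 0) (n : M) : c n = 0 :=
  (h.bind (FF.pb h hc (PT.con 0) (PT.var 0)) (fun _ => 0) h0.symm
    (fun n hn => (h1 n hn.symm).symm) n).symm

/-- the least number principle for bounded formulas -/
theorem RCA0.leastB (h : RCA0 M S) {P : (ℕ → M) → Prop} (hP : PB S P) (e : ℕ → M)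
    (he : ∃ n, P (cons n e)) : ∃ n, P (cons n e) ∧ ∀ m < n, ¬ P (cons m e) := by
  by_contra hc
  push Not at hc
  obtain ⟨n, hn⟩ := he
  have key := h.bind (P := fun e => ∀ x, x < e 0 → ¬ P (cons x fun n => e (n + 1)))
    ((hP.subst (fun i e => cons (e 0) (fun n => e (n + 2)) i) (fun i => by
      rcases i with _ | i
      · exact PT.var 0
      · exact PT.var (i + 2))).not.all (PT.var 0)) e
    (fun x hx => absurd hx (not_lt.2 zero_le))
    (fun k hk x hx hPx => by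
      rcases lt_or_eq_of_le (lt_add_one_iffM.1 hx) with hlt | heq
      · exact hk x hlt hPx
      · obtain ⟨m, hm, hPm⟩ := hc x hPx
        exact hk m (heq ▸ hm) hPm) (n + 1)
  exact key n (lt_add_one n) hn

theorem FF.mu (h : RCA0 M S) (c : M → M) (hc : c ∈ FF S) (ht : ∀ x, ∃ i, c (pr x i) = 0) :
    ∃ f ∈ FF S, ∀ x, c (pr x (f x)) = 0 ∧ ∀ i < f x, c (pr x i) ≠ 0 := by
  have hP : PB S fun e => (0 : M) = c (pr (e 1) (e 0)) :=
    FF.pb h hc (PT.con 0) ((PT.var 1).pr (PT.var 0))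
  have hex : ∀ x, ∃ n, c (pr x n) = 0 ∧ ∀ m < n, c (pr x m) ≠ 0 := by
    intro x
    obtain ⟨n, hn, hn'⟩ := h.leastB hP (cons x fun _ => 0) (by
      obtain ⟨i, hi⟩ := ht x
      exact ⟨i, hi.symm⟩)
    exact ⟨n, hn.symm, fun m hm hm' => hn' m hm hm'.symm⟩
  choose f hf hf' using hex
  refine ⟨f, ?_, fun x => ⟨hf x, hf' x⟩⟩
  have hQ : PB S fun e => ∀ i, i < e 0 → ¬ (0 : M) = c (pr (e 1) i) :=
    ((FF.pb h hc (PT.con 0) ((PT.var 2).pr (PT.var 0))).not).all (PT.var 0)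
  refine FF.of_pb h (fun _ => 0) (hP.and hQ) fun x y => ?_
  constructor
  · rintro ⟨h1, h2⟩
    rcases lt_trichotomy y (f x) with h3 | h3 | h3
    · exact absurd h1.symm (hf' x y h3)
    · exact h3
    · exact absurd (hf x).symm (h2 (f x) h3)
  · intro hy
    have hy' : y = f x := hy
    subst hy'
    exact ⟨(hf x).symm, fun i hi hi' => hf' x i hi hi'.symm⟩

theorem FF.p1_mem (h : RCA0 M S) : (p1 : M → M) ∈ FF S := by
  have h1 : PB S fun e => ∃ y, y < e 1 + 1 ∧ e 1 = pr (e 0) y :=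
    (PB.eq (PT.var 2) ((PT.var 1).pr (PT.var 0))).ex ((PT.var 1).add (PT.con 1))
  have h2 : PB S fun e => ∃ x, x < e 1 + 1 ∧ ∃ y, y < e 1 + 1 ∧ e 1 = pr x y :=
    ((PB.eq (PT.var 3) ((PT.var 1).pr (PT.var 0))).ex ((PT.var 2).add (PT.con 1))).ex
      ((PT.var 1).add (PT.con 1))
  refine FF.of_pb h (fun _ => 0) (h1.or (h2.not.and (PB.eq (PT.var 0) (PT.con 0)))) fun w x => ?_
  show (∃ y, y < w + 1 ∧ w = pr x y) ∨ (¬ (∃ x, x < w + 1 ∧ ∃ y, y < w + 1 ∧ w = pr x y) ∧ x = 0) ↔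
    x = p1 w
  by_cases hw : ∃ a b, pr a b = w
  · obtain ⟨a, b, rfl⟩ := hw
    rw [p1_pr]
    constructor
    · rintro (⟨y, _, hy⟩ | ⟨h3, _⟩)
      · exact (pr_inj hy).1.symm
      · exact absurd ⟨a, dsr_lt_succ.2 (left_le_pr a b), b,
          dsr_lt_succ.2 (right_le_pr a b), rfl⟩ h3
    · rintro rfl
      exact Or.inl ⟨b, dsr_lt_succ.2 (right_le_pr _ b), rfl⟩
  · rw [p1_neg hw]
    constructor
    · rintro (⟨y, _, hy⟩ | ⟨_, h4⟩)
      · exact absurd ⟨x, y, hy.symm⟩ hw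
      · exact h4
    · intro hx
      exact Or.inr ⟨fun ⟨a, _, b, _, hab⟩ => hw ⟨a, b, hab.symm⟩, hx⟩

theorem FF.p2_mem (h : RCA0 M S) : (p2 : M → M) ∈ FF S := by
  have h1 : PB S fun e => ∃ x, x < e 1 + 1 ∧ e 1 = pr x (e 0) :=
    (PB.eq (PT.var 2) ((PT.var 0).pr (PT.var 1))).ex ((PT.var 1).add (PT.con 1))
  have h2 : PB S fun e => ∃ x, x < e 1 + 1 ∧ ∃ y, y < e 1 + 1 ∧ e 1 = pr x y :=
    ((PB.eq (PT.var 3) ((PT.var 1).pr (PT.var 0))).ex ((PT.var 2).add (PT.con 1))).ex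
      ((PT.var 1).add (PT.con 1))
  refine FF.of_pb h (fun _ => 0) (h1.or (h2.not.and (PB.eq (PT.var 0) (PT.con 0)))) fun w y => ?_
  show (∃ x, x < w + 1 ∧ w = pr x y) ∨ (¬ (∃ x, x < w + 1 ∧ ∃ y, y < w + 1 ∧ w = pr x y) ∧ y = 0) ↔
    y = p2 w
  by_cases hw : ∃ a b, pr a b = w
  · obtain ⟨a, b, rfl⟩ := hw
    rw [p2_pr]
    constructor
    · rintro (⟨x, _, hx⟩ | ⟨h3, _⟩)
      · exact (pr_inj hx).2.symm
      · exact absurd ⟨a, dsr_lt_succ.2 (left_le_pr a b), b,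
          dsr_lt_succ.2 (right_le_pr a b), rfl⟩ h3
    · rintro rfl
      exact Or.inl ⟨a, dsr_lt_succ.2 (left_le_pr a _), rfl⟩
  · rw [p2_neg hw]
    constructor
    · rintro (⟨x, _, hx⟩ | ⟨_, h4⟩)
      · exact absurd ⟨x, y, hx.symm⟩ hw
      · exact h4
    · intro hx
      exact Or.inr ⟨fun ⟨a, _, b, _, hab⟩ => hw ⟨a, b, hab.symm⟩, hx⟩

/-- the functions of the model are the functions with `Σ⁰₁` graph -/
theorem FF.iff (h : RCA0 M S) (f : M → M) : f ∈ FF S ↔ PF S (fun e => f (e 0)) := by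
  constructor
  · intro hf
    exact PB.ps (FF.pb h hf (PT.var 0) (PT.var 1))
  · intro hf
    exact FF.of_ps h (fun _ => 0) hf fun _ _ => Iff.rfl

end Pool.Agent.Lib.MP_531058_lc.RCA
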