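import Pool.Agent.Lib.MP_531058_lc.RCA.Brg

/-!
# The functions of a model of `RCA₀`: all closure properties except primitive recursion
-/

set_option linter.unusedSectionVars false

namespace Pool.Agent.Lib.MP_531058_lc.RCA

universe u

variable {M : Type u} [DSR M] {S : Set (Set M)}

/-- the function `f` has a `Σ⁰₁` graph -/
def IF (S : Set (Set M)) (f : M → M) : Prop := PF S (fun e => f (e 0))

theorem IF.id : IF S (fun x : M => x) := (PT.var 0).pf

theorem IF.const (c : M) : IF S (fun _ : M => c) := (PT.con c).pf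

/-- substitution into a function of one variable -/
theorem IF.app {f : M → M} (hf : IF S f) {g : (ℕ → M) → M} (hg : PF S g) :
    PF S (fun e => f (g e)) := PF.comp (f := fun e => f (e 0)) hf hg

theorem IF.comp {f g : M → M} (hf : IF S f) (hg : IF S g) : IF S (fun x => f (g x)) := hf.app hg

theorem IF.p1 : IF S (p1 : M → M) := PF.p1

theorem IF.p2 : IF S (p2 : M → M) := PF.p2

/-- terms in two functions -/
theorem PF.two {t : M → M → M} (ht : PT (fun e : ℕ → M => t (e 0) (e 1))) {f g : (ℕ → M) → M}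
    (hf : PF S f) (hg : PF S g) : PF S (fun e => t (f e) (g e)) := by
  have ht' : PT (fun e : ℕ → M => t (e 0) (e 1)) := ht
  have h1 : PB S (fun e : ℕ → M => e 2 = t (e 0) (e 1)) := PB.eq (PT.var 2) ht'
  have h2 : PS S (fun e : ℕ → M => e 0 = f (rest (rest (rest e)))) := by
    have h3 := PS.ren hf (fun i => match i with
      | 0 => 0
      | i + 1 => i + 3)
    refine h3.congr fun e => ?_
    have : (rest fun i => e (match i with
      | 0 => 0
      | i + 1 => i + 3)) = rest (rest (rest e)) := by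
      funext i
      rfl
    rw [this]
  have h3 : PS S (fun e : ℕ → M => e 1 = g (rest (rest (rest e)))) := by
    have h3 := PS.ren hg (fun i => match i with
      | 0 => 1
      | i + 1 => i + 3)
    refine h3.congr fun e => ?_
    have : (rest fun i => e (match i with
      | 0 => 1
      | i + 1 => i + 3)) = rest (rest (rest e)) := by
      funext i
      rfl
    rw [this]
  have h4 := ((h1.ps.and (h2.and h3)).ex).ex
  refine h4.congr fun e => ?_
  constructor
  · rintro ⟨y, x, h5, h6, h7⟩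
    simp only [cons_zero, cons_succ, rest_cons] at h5 h6 h7
    rw [h5, h6, h7]
  · intro h5
    exact ⟨g (rest e), f (rest e), h5, rfl, rfl⟩

theorem IF.add {f g : M → M} (hf : IF S f) (hg : IF S g) : IF S (fun x => f x + g x) :=
  PF.two (t := fun a b => a + b) ((PT.var 0).add (PT.var 1)) hf hg

theorem IF.mul {f g : M → M} (hf : IF S f) (hg : IF S g) : IF S (fun x => f x * g x) :=
  PF.two (t := fun a b => a * b) ((PT.var 0).mul (PT.var 1)) hf hg

theorem IF.pr {f g : M → M} (hf : IF S f) (hg : IF S g) : IF S (fun x => pr (f x) (g x)) :=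
  PF.two (t := fun a b => RCA.pr a b) ((PT.var 0).pr (PT.var 1)) hf hg

/-- predicates which are `Σ⁰₁` and `Π⁰₁` -/
def PD (S : Set (Set M)) (P : (ℕ → M) → Prop) : Prop := PS S P ∧ PS S (fun e => ¬ P e)

theorem PB.pd {P : (ℕ → M) → Prop} (hP : PB S P) : PD S P := ⟨hP.ps, hP.not.ps⟩

theorem PD.not {P : (ℕ → M) → Prop} (hP : PD S P) : PD S (fun e => ¬ P e) :=
  ⟨hP.2, hP.1.congr fun e => by rw [not_not]⟩

theorem PD.and {P Q : (ℕ → M) → Prop} (hP : PD S P) (hQ : PD S Q) :
    PD S (fun e => P e ∧ Q e) :=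
  ⟨hP.1.and hQ.1, (hP.2.or hQ.2).congr fun e => by tauto⟩

theorem PD.congr {P Q : (ℕ → M) → Prop} (hP : PD S P) (h : ∀ e, P e ↔ Q e) : PD S Q :=
  ⟨hP.1.congr h, hP.2.congr fun e => by rw [h e]⟩

theorem PD.or {P Q : (ℕ → M) → Prop} (hP : PD S P) (hQ : PD S Q) :
    PD S (fun e => P e ∨ Q e) :=
  ⟨hP.1.or hQ.1, (hP.2.and hQ.2).congr fun e => by tauto⟩

theorem PD.comp {P : (ℕ → M) → Prop} (hP : PD S P) {f : (ℕ → M) → M} (hf : PF S f) :
    PD S (fun e => P (cons (f e) e)) :=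
  ⟨hP.1.comp hf, hP.2.comp hf⟩

/-- bounded quantifier, the bound is a function of the model -/
theorem PD.all (h : RCA0 M S) {P : (ℕ → M) → Prop} (hP : PD S P) {f : (ℕ → M) → M}
    (hf : PF S f) : PD S (fun e => ∀ x, x < f e → P (cons x e)) := by
  have key : ∀ {P : (ℕ → M) → Prop}, PS S P → PS S (fun e => ∀ x, x < f e → P (cons x e)) := by
    intro P hP
    have h1 : PS S (fun e : ℕ → M => ∀ x, x < e 0 → P (cons x (rest e))) := by
      have h2 := PS.all h (hP.ren (fun i => match i with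
        | 0 => 0
        | i + 1 => i + 2)) (PT.var 0)
      refine h2.congr fun e => forall_congr' fun x => imp_congr_right fun _ => ?_
      have : (fun i => cons x e (match i with
        | 0 => 0
        | i + 1 => i + 2)) = cons x (rest e) := by
        funext i
        cases i <;> rfl
      rw [this]
    exact h1.comp hf
  refine ⟨key hP.1, ?_⟩
  have h1 : PS S (fun e : ℕ → M => ∃ x, x < f e ∧ ¬ P (cons x e)) := by
    have h2 : PS S (fun e : ℕ → M => e 0 < f (rest e)) := by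
      have h3 : PS S (fun e : ℕ → M => e 1 < e 0) := (PB.lt (PT.var 1) (PT.var 0)).ps
      exact h3.comp (f := fun e => f (rest e)) hf.tl
    exact (h2.and hP.2).ex
  refine h1.congr fun e => ?_
  push Not
  rfl

/-- the characteristic function of a predicate -/
theorem PD.chi {P : (ℕ → M) → Prop} (hP : PD S P) : PF S (fun e => (chi (P e) : M)) := by
  have h1 : PS S (fun e : ℕ → M => (P (rest e) ∧ e 0 = 1) ∨ (¬ P (rest e) ∧ e 0 = 0)) :=
    (hP.1.tl.and (PB.eq (PT.var 0) (PT.con 1)).ps).or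
      (hP.2.tl.and (PB.eq (PT.var 0) (PT.con 0)).ps)
  refine h1.congr fun e => ?_
  change P (rest e) ∧ e 0 = 1 ∨ ¬ P (rest e) ∧ e 0 = 0 ↔ e 0 = (RCA.chi (P (rest e)) : M)
  by_cases hx : P (rest e)
  · rw [show (RCA.chi (P (rest e)) : M) = 1 from chi_eq_one.mpr hx]
    simp [hx]
  · rw [show (RCA.chi (P (rest e)) : M) = 0 from chi_eq_zero.mpr hx]
    simp [hx]

/-- comparison of two functions -/
theorem PD.two {P : M → M → Prop} (hP : PB S (fun e : ℕ → M => P (e 0) (e 1)))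
    {f g : (ℕ → M) → M} (hf : PF S f) (hg : PF S g) : PD S (fun e => P (f e) (g e)) := by
  have key : ∀ {P : M → M → Prop}, PS S (fun e : ℕ → M => P (e 0) (e 1)) →
      PS S (fun e => P (f e) (g e)) := by
    intro P hP
    exact hP.comp2 (f := f) (g := g) hf hg
  exact ⟨key hP.ps, key (P := fun a b => ¬ P a b) hP.not.ps⟩

theorem IF.le {f g : M → M} (hf : IF S f) (hg : IF S g) :
    IF S (fun x => (chi (f x ≤ g x) : M)) := by
  have h1 : PB S (fun e : ℕ → M => e 0 ≤ e 1) :=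
    (PB.lt (PT.var 1) (PT.var 0)).not.congr fun e => by simp
  exact (PD.two (P := fun a b => a ≤ b) h1 hf hg).chi

theorem IF.zero_iff {c : M → M} (hc : IF S c) {g : (ℕ → M) → M} (hg : PF S g) :
    PD S (fun e => c (g e) = 0) := by
  have h1 : PB S (fun e : ℕ → M => e 0 = e 1) := PB.eq (PT.var 0) (PT.var 1)
  exact PD.two (P := fun a b => a = b) h1 (hc.app hg) (PT.con 0).pf

/-- definition by cases -/
theorem PF.sel {P : (ℕ → M) → Prop} (hP : PD S P) {f g : (ℕ → M) → M} (hf : PF S f)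
    (hg : PF S g) : PF S (fun e => sel (P e) (f e) (g e)) := by
  have h1 : PS S (fun e : ℕ → M => (P (rest e) ∧ e 0 = f (rest e)) ∨
      (¬ P (rest e) ∧ e 0 = g (rest e))) :=
    (hP.1.tl.and hf).or (hP.2.tl.and hg)
  refine h1.congr fun e => ?_
  change P (rest e) ∧ e 0 = f (rest e) ∨ ¬ P (rest e) ∧ e 0 = g (rest e) ↔
    e 0 = RCA.sel (P (rest e)) (f (rest e)) (g (rest e))
  by_cases hx : P (rest e)
  · rw [sel_pos hx]
    simp [hx]
  · rw [sel_neg hx]
    simp [hx]

theorem IF.ite {c f g : M → M} (hc : IF S c) (hf : IF S f) (hg : IF S g) :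
    IF S (fun x => sel (c x = 0) (f x) (g x)) :=
  PF.sel (hc.zero_iff (PT.var 0).pf) hf hg

theorem IF.ball (h : RCA0 M S) {c b : M → M} (hc : IF S c) (hb : IF S b) :
    IF S (fun x => (chi (∀ i < b x, c (RCA.pr x i) = 0) : M)) := by
  have h1 : PD S (fun e : ℕ → M => c (RCA.pr (e 1) (e 0)) = 0) :=
    hc.zero_iff ((PT.var 1).pr (PT.var 0)).pf
  exact (PD.all h h1 hb).chi

theorem IF.mu (h : RCA0 M S) {c : M → M} (hc : IF S c) (ht : ∀ x, ∃ i, c (RCA.pr x i) = 0) :
    ∃ g, IF S g ∧ ∀ x, c (RCA.pr x (g x)) = 0 ∧ ∀ i < g x, c (RCA.pr x i) ≠ 0 := by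
  have h1 : PD S (fun e : ℕ → M => c (RCA.pr (e 1) (e 0)) = 0) :=
    hc.zero_iff ((PT.var 1).pr (PT.var 0)).pf
  have h2 : ∀ x : M, ∃ y, c (RCA.pr x y) = 0 ∧ ∀ z, z < y → ¬ c (RCA.pr x z) = 0 := by
    intro x
    obtain ⟨i, hi⟩ := ht x
    exact h.least (P := fun e => c (RCA.pr (e 1) (e 0)) = 0) h1.2 (cons x fun _ => 0) i hi
  choose g hg using h2
  refine ⟨g, ?_, hg⟩
  have h3 : PD S (fun e : ℕ → M => ∀ z, z < e 0 → ¬ c (RCA.pr (e 1) z) = 0) := by
    have h4 : PD S (fun e : ℕ → M => ¬ c (RCA.pr (e 2) (e 0)) = 0) :=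
      (hc.zero_iff ((PT.var 2).pr (PT.var 0)).pf).not
    exact PD.all h h4 (PT.var 0).pf
  refine (h1.and h3).1.congr fun e => ?_
  simp only [rest_apply, zero_add]
  constructor
  · rintro ⟨h4, h5⟩
    obtain ⟨h6, h7⟩ := hg (e 1)
    rcases lt_trichotomy (e 0) (g (e 1)) with h8 | h8 | h8
    · exact absurd h4 (h7 _ h8)
    · exact h8
    · exact absurd h6 (h5 _ h8)
  · intro h4
    rw [h4]
    exact hg (e 1)

theorem IF.ind (h : RCA0 M S) {c : M → M} (hc : IF S c) (h0 : c 0 = 0)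
    (h1 : ∀ n, c n = 0 → c (n + 1) = 0) (n : M) : c n = 0 :=
  h.ind (P := fun e => c (e 0) = 0) (hc.zero_iff (PT.var 0).pf).1 (fun _ => 0) h0 h1 n

/-- `Σ⁰₁` induction for the class -/
theorem IF.ind1 (h : RCA0 M S) {c : M → M} (hc : IF S c) (h0 : ∃ x, c (RCA.pr 0 x) = 0)
    (h1 : ∀ n, (∃ x, c (RCA.pr n x) = 0) → ∃ x, c (RCA.pr (n + 1) x) = 0) (n : M) :
    ∃ x, c (RCA.pr n x) = 0 := by
  have h2 : PD S (fun e : ℕ → M => c (RCA.pr (e 1) (e 0)) = 0) :=
    hc.zero_iff ((PT.var 1).pr (PT.var 0)).pf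
  exact h.ind (P := fun e => ∃ x, c (RCA.pr (e 0) x) = 0) h2.1.ex (fun _ => 0) h0 h1 n

end Pool.Agent.Lib.MP_531058_lc.RCA
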