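import Mathlib

/-!
# Models of `RCA₀`, the Erdős-Moser theorem and the cohesiveness principle

A structure for the language of second-order arithmetic is a type `M` with `0`, `1`, `+`, `*`, `<`
and a family `S` of subsets of `M`. `RCA0 M S` says that it is a model of `RCA₀`: the basic axioms,
`Σ⁰₁` induction and `Δ⁰₁` comprehension (both with number and set parameters). Formulas are written
with de Bruijn indices and have parameters from `M` and `S`.
-/

namespace Pool.Agent.Lib.MP_531058_lc.RCA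

universe u

/-- put `x` in front of the environment `e` -/
def cons {M : Type u} (x : M) (e : ℕ → M) : ℕ → M
  | 0 => x
  | n + 1 => e n

/-- number terms with parameters from `M`; `var n` is the `n`-th variable (de Bruijn index) -/
inductive Tm (M : Type u) : Type u
  | var : ℕ → Tm M
  | con : M → Tm M
  | add : Tm M → Tm M → Tm M
  | mul : Tm M → Tm M → Tm M

/-- the value of a term in the environment `e` -/
def Tm.val {M : Type u} [Add M] [Mul M] : Tm M → (ℕ → M) → M
  | .var n, e => e n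
  | .con a, _ => a
  | .add s t, e => s.val e + t.val e
  | .mul s t, e => s.val e * t.val e

/-- `Σ⁰₀` formulas: all quantifiers are bounded number quantifiers; parameters from `M` and `S`.
`all t φ` is `∀ x < t, φ`; in `φ` the variable `0` is `x` and the others are shifted by one. -/
inductive Bd {M : Type u} (S : Set (Set M)) : Type u
  | eq : Tm M → Tm M → Bd S
  | lt : Tm M → Tm M → Bd S
  | mem : Tm M → S → Bd S
  | neg : Bd S → Bd S
  | and : Bd S → Bd S → Bd S
  | all : Tm M → Bd S → Bd S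

/-- truth of a `Σ⁰₀` formula in the environment `e` -/
def Bd.sat {M : Type u} [Add M] [Mul M] [LT M] {S : Set (Set M)} : Bd S → (ℕ → M) → Prop
  | .eq s t, e => s.val e = t.val e
  | .lt s t, e => s.val e < t.val e
  | .mem t X, e => t.val e ∈ X.1
  | .neg φ, e => ¬ φ.sat e
  | .and φ ψ, e => φ.sat e ∧ ψ.sat e
  | .all t φ, e => ∀ x, x < t.val e → φ.sat (cons x e)

/-- `(M, S)` is a model of `RCA₀` -/
structure RCA0 (M : Type u) [Zero M] [One M] [Add M] [Mul M] [LT M] (S : Set (Set M)) :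
    Prop where
  /-- the family of sets is not empty -/
  nonempty : S.Nonempty
  /-- the basic axioms -/
  succ_ne_zero : ∀ n : M, n + 1 ≠ 0
  succ_inj : ∀ m n : M, m + 1 = n + 1 → m = n
  add_zero : ∀ m : M, m + 0 = m
  add_succ : ∀ m n : M, m + (n + 1) = (m + n) + 1
  mul_zero : ∀ m : M, m * 0 = 0
  mul_succ : ∀ m n : M, m * (n + 1) = m * n + m
  not_lt_zero : ∀ m : M, ¬ m < 0
  lt_succ : ∀ m n : M, m < n + 1 ↔ m < n ∨ m = n
  /-- `Σ⁰₁` induction, for the formula `∃ x, φ` in the variable `n` -/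
  induction : ∀ (φ : Bd S) (e : ℕ → M), (∃ x, φ.sat (cons x (cons 0 e))) →
    (∀ n, (∃ x, φ.sat (cons x (cons n e))) → ∃ x, φ.sat (cons x (cons (n + 1) e))) →
    ∀ n, ∃ x, φ.sat (cons x (cons n e))
  /-- `Δ⁰₁` comprehension -/
  comprehension : ∀ (φ ψ : Bd S) (e : ℕ → M),
    (∀ n, (∃ x, φ.sat (cons x (cons n e))) ↔ ∀ x, ψ.sat (cons x (cons n e))) →
    {n | ∃ x, φ.sat (cons x (cons n e))} ∈ S

/-- Simpson's code of the pair `(x, y)` -/
def pr {M : Type u} [Add M] [Mul M] (x y : M) : M := (x + y) * (x + y) + x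

/-- infinite (unbounded) sets of the model -/
def Unb {M : Type u} [LT M] (X : Set M) : Prop := ∀ m, ∃ n ∈ X, m < n

/-- the Erdős-Moser theorem in `(M, S)`: every tournament on an infinite domain `D` has an infinite
transitive subtournament. The tournament `T ⊆ D²` is given by the codes `pr x y` of its pairs. -/
def EM (M : Type u) [Add M] [Mul M] [LT M] (S : Set (Set M)) : Prop :=
  ∀ D ∈ S, Unb D → ∀ T ∈ S, (∀ z ∈ T, ∃ x ∈ D, ∃ y ∈ D, z = pr x y) → (∀ x ∈ D, pr x x ∉ T) →
    (∀ x ∈ D, ∀ y ∈ D, x ≠ y → (pr x y ∈ T ↔ pr y x ∉ T)) →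
    ∃ H ∈ S, H ⊆ D ∧ Unb H ∧ ∀ x ∈ H, ∀ y ∈ H, ∀ z ∈ H, pr x y ∈ T → pr y z ∈ T → pr x z ∈ T

/-- the cohesiveness principle in `(M, S)`: for every sequence `R_i = {x | pr x i ∈ R}` of sets
there is an infinite `C` such that for each `i` almost all elements of `C` are in `R_i` or almost
all are not in `R_i`. -/
def COH (M : Type u) [Add M] [Mul M] [LT M] (S : Set (Set M)) : Prop :=
  ∀ R ∈ S, ∃ C ∈ S, Unb C ∧
    ∀ i, (∃ b, ∀ x ∈ C, b < x → pr x i ∈ R) ∨ (∃ b, ∀ x ∈ C, b < x → pr x i ∉ R)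

end Pool.Agent.Lib.MP_531058_lc.RCA
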