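import Pool.Agent.Lib.MP_531058_lc.RCA.Api

/-!
# Instance 1: the natural numbers with the functions recursive in a set of oracles
-/

namespace Pool.Agent.Lib.MP_531058_lc.RCA

instance natDSR : DSR ℕ where
  toCommSemiring := inferInstance
  toLinearOrder := inferInstance
  toIsStrictOrderedRing := inferInstance
  toCanonicallyOrderedAdd := inferInstance
  succ_le_of_lt := fun _ _ h => h

/-- the total functions recursive in the oracles `O` -/
def RecF (O : Set (ℕ →. ℕ)) : Set (ℕ → ℕ) := {f | Nat.RecursiveIn O (fun n => Part.some (f n))}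

namespace RecF

variable {O : Set (ℕ →. ℕ)}

theorem congr {f g : ℕ → ℕ} (h : f ∈ RecF O) (e : ∀ x, g x = f x) : g ∈ RecF O := by
  have : g = f := funext e
  rw [this]; exact h

theorem of_primrec {f : ℕ → ℕ} (h : Nat.Primrec f) : f ∈ RecF O := h.recursiveIn

theorem of_primrec' {f : ℕ → ℕ} (h : Primrec f) : f ∈ RecF O :=
  of_primrec (Primrec.nat_iff.1 h)

theorem comp {f g : ℕ → ℕ} (hf : f ∈ RecF O) (hg : g ∈ RecF O) : (fun x => f (g x)) ∈ RecF O := by
  refine Nat.RecursiveIn.of_eq (Nat.RecursiveIn.comp hf hg) fun n => ?_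
  simp

theorem pair {f g : ℕ → ℕ} (hf : f ∈ RecF O) (hg : g ∈ RecF O) :
    (fun x => Nat.pair (f x) (g x)) ∈ RecF O := by
  refine Nat.RecursiveIn.of_eq (Nat.RecursiveIn.pair hf hg) fun n => ?_
  simp [Seq.seq]

theorem id : (fun x : ℕ => x) ∈ RecF O := of_primrec' Primrec.id

theorem const (c : ℕ) : (fun _ : ℕ => c) ∈ RecF O := of_primrec' (Primrec.const c)

theorem left : (fun x : ℕ => x.unpair.1) ∈ RecF O := of_primrec' (Primrec.fst.comp Primrec.unpair)

theorem right : (fun x : ℕ => x.unpair.2) ∈ RecF O := of_primrec' (Primrec.snd.comp Primrec.unpair)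

theorem primrec₂ {G : ℕ → ℕ → ℕ} (hG : Primrec₂ G) {f g : ℕ → ℕ} (hf : f ∈ RecF O)
    (hg : g ∈ RecF O) : (fun x => G (f x) (g x)) ∈ RecF O := by
  have h1 : (fun x : ℕ => G x.unpair.1 x.unpair.2) ∈ RecF O :=
    of_primrec' (hG.comp (Primrec.fst.comp Primrec.unpair) (Primrec.snd.comp Primrec.unpair))
  refine congr (comp h1 (pair hf hg)) fun x => ?_
  simp

theorem ite {c f g : ℕ → ℕ} (hc : c ∈ RecF O) (hf : f ∈ RecF O) (hg : g ∈ RecF O) :
    (fun x => if c x = 0 then f x else g x) ∈ RecF O := by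
  have h1 : Primrec (fun x : ℕ => if x.unpair.1 = 0 then x.unpair.2.unpair.1
      else x.unpair.2.unpair.2) := by
    refine Primrec.ite ?_ ?_ ?_
    · exact Primrec.eq.comp (Primrec.fst.comp Primrec.unpair) (Primrec.const 0)
    · exact Primrec.fst.comp (Primrec.unpair.comp (Primrec.snd.comp Primrec.unpair))
    · exact Primrec.snd.comp (Primrec.unpair.comp (Primrec.snd.comp Primrec.unpair))
  refine congr (comp (of_primrec' h1) (pair hc (pair hf hg))) fun x => ?_
  simp

theorem prec {f g : ℕ → ℕ} (hf : f ∈ RecF O) (hg : g ∈ RecF O) :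
    (fun p : ℕ => (Nat.rec (f p.unpair.1) (fun y i => g (Nat.pair p.unpair.1 (Nat.pair y i)))
      p.unpair.2 : ℕ)) ∈ RecF O := by
  refine Nat.RecursiveIn.of_eq (Nat.RecursiveIn.prec hf hg) fun p => ?_
  have key : ∀ (a n : ℕ), (Nat.rec (motive := fun _ => Part ℕ) (Part.some (f a))
      (fun y IH => IH >>= fun i => Part.some (g (Nat.pair a (Nat.pair y i)))) n : Part ℕ) =
      Part.some (Nat.rec (f a) (fun y i => g (Nat.pair a (Nat.pair y i))) n : ℕ) := by
    intro a n
    induction n with
    | zero => rfl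
    | succ n ih =>
      show (Nat.rec (motive := fun _ => Part ℕ) (Part.some (f a)) (fun y IH => IH >>= fun i =>
        Part.some (g (Nat.pair a (Nat.pair y i)))) n : Part ℕ) >>= _ = _
      rw [ih]; simp
  exact key p.unpair.1 p.unpair.2

theorem mu {c : ℕ → ℕ} (hc : c ∈ RecF O) (ht : ∀ x, ∃ i, c (Nat.pair x i) = 0) :
    ∃ h ∈ RecF O, ∀ x, c (Nat.pair x (h x)) = 0 ∧ ∀ i < h x, c (Nat.pair x i) ≠ 0 := by
  classical
  refine ⟨fun x => Nat.find (ht x), ?_, fun x => ⟨Nat.find_spec (ht x), fun i hi =>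
    Nat.find_min (ht x) hi⟩⟩
  refine Nat.RecursiveIn.of_eq (Nat.RecursiveIn.rfind hc) fun x => ?_
  refine Part.eq_some_iff.2 ?_
  refine Nat.mem_rfind.2 ⟨?_, fun {m} hm => ?_⟩
  · have := Nat.find_spec (ht x)
    simp [this]
  · have := Nat.find_min (ht x) hm
    simp [this]

end RecF

theorem natLF (x : ℕ) : (Nat.unpair x).1 = (fun x : ℕ => x.unpair.1) x := rfl

/-- the system of the total functions recursive in the oracles `O` -/
noncomputable def sysO (O : Set (ℕ →. ℕ)) : Sys ℕ where
  F := RecF O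
  pr := Nat.pair
  lf := fun x => x.unpair.1
  rt := fun x => x.unpair.2
  lf_pr := fun a b => by simp
  rt_pr := fun a b => by simp
  left_le_pr := Nat.left_le_pair
  right_le_pr := Nat.right_le_pair
  id_mem := RecF.id
  const_mem := RecF.const
  comp_mem := fun _ hf _ hg => RecF.comp hf hg
  lf_mem := RecF.left
  rt_mem := RecF.right
  pr_mem := fun _ hf _ hg => RecF.pair hf hg
  add_mem := fun _ hf _ hg => RecF.primrec₂ Primrec.nat_add hf hg
  mul_mem := fun _ hf _ hg => RecF.primrec₂ Primrec.nat_mul hf hg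
  le_mem := fun f hf g hg => by
    have h1 : Primrec₂ (fun a b : ℕ => if a ≤ b then 1 else 0) :=
      Primrec.ite Primrec.nat_le (Primrec.const 1) (Primrec.const 0)
    refine RecF.congr (RecF.primrec₂ h1 hf hg) fun x => ?_
    unfold chi; rw [sel_eq]
  ite_mem := fun c hc f hf g hg => by
    refine RecF.congr (RecF.ite hc hf hg) fun x => ?_
    rw [sel_eq]
  ball_mem := fun c hc b hb => by
    have hy : (fun x : ℕ => x.unpair.2.unpair.1) ∈ RecF O := RecF.comp RecF.left RecF.right
    have hi : (fun x : ℕ => x.unpair.2.unpair.2) ∈ RecF O := RecF.comp RecF.right RecF.right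
    have hstep : (fun x : ℕ => if x.unpair.2.unpair.2 = 0 then 0 else
        (if c (Nat.pair x.unpair.1 x.unpair.2.unpair.1) = 0 then 1 else 0)) ∈ RecF O :=
      RecF.ite hi (RecF.const 0) (RecF.ite (RecF.comp hc (RecF.pair RecF.left hy))
        (RecF.const 1) (RecF.const 0))
    have hp := RecF.prec (RecF.const 1) hstep
    refine RecF.congr (RecF.comp hp (RecF.pair RecF.id hb)) fun x => ?_
    simp only [Nat.unpair_pair]
    have key : ∀ n : ℕ, (Nat.rec 1 (fun y i => if i = 0 then 0 else
        (if c (Nat.pair x y) = 0 then 1 else 0)) n : ℕ) = chi (∀ i < n, c (Nat.pair x i) = 0) := by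
      intro n
      induction n with
      | zero =>
        show (1 : ℕ) = _
        symm; exact chi_eq_one.2 (fun i hi => absurd hi (Nat.not_lt_zero i))
      | succ n ih =>
        show (if (Nat.rec 1 (fun y i => if i = 0 then 0 else
          (if c (Nat.pair x y) = 0 then 1 else 0)) n : ℕ) = 0 then 0 else
          (if c (Nat.pair x n) = 0 then 1 else 0)) = _
        rw [ih]
        by_cases h1 : ∀ i < n, c (Nat.pair x i) = 0
        · rw [if_neg (by rw [chi_eq_zero]; exact not_not.2 h1)]
          by_cases h2 : c (Nat.pair x n) = 0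
          · rw [if_pos h2]; symm; rw [chi_eq_one]
            intro i hi
            rcases Nat.lt_succ_iff_lt_or_eq.1 hi with h | h
            · exact h1 i h
            · rw [h]; exact h2
          · rw [if_neg h2]; symm; rw [chi_eq_zero]
            intro h; exact h2 (h n (Nat.lt_succ_self n))
        · rw [if_pos (by rw [chi_eq_zero]; exact h1)]; symm; rw [chi_eq_zero]
          intro h; exact h1 fun i hi => h i (Nat.lt_succ_of_lt hi)
    exact (key (b x)).symm
  prec := fun f hf g hg => by
    have hy : (fun x : ℕ => x.unpair.2.unpair.1) ∈ RecF O := RecF.comp RecF.left RecF.right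
    have hi : (fun x : ℕ => x.unpair.2.unpair.2) ∈ RecF O := RecF.comp RecF.right RecF.right
    have hg' : (fun x : ℕ => g (Nat.pair (Nat.pair x.unpair.1 x.unpair.2.unpair.1)
        x.unpair.2.unpair.2)) ∈ RecF O :=
      RecF.comp hg (RecF.pair (RecF.pair RecF.left hy) hi)
    refine ⟨_, RecF.prec hf hg', fun x => ⟨?_, fun n => ?_⟩⟩
    · simp
    · simp only [Nat.unpair_pair]
      try rfl
  mu := fun c hc ht => RecF.mu hc ht
  ind := fun c _ h0 hs n => by
    induction n with
    | zero => exact h0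
    | succ n ih => exact hs n ih

/-- the pigeonhole principle holds in the standard model -/
theorem sysO_RT1 (O : Set (ℕ →. ℕ)) : (sysO O).RT1 := by
  intro f _ b hb
  have hpos : 0 < b := lt_of_le_of_lt (Nat.zero_le _) (hb 0)
  by_contra hcon
  push Not at hcon
  choose! N hN using hcon
  let K := (Finset.range b).sup N
  have h1 := hN (f K) (hb K) K (Finset.le_sup (f := N) (Finset.mem_range.2 (hb K)))
  exact h1 rfl

end Pool.Agent.Lib.MP_531058_lc.RCA
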