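import Pool.Agent.Lib.MP_531058_lc.RCA.Arith

/-!
# Closure properties of `Σ⁰₁` and `Δ⁰₁` predicates in a model of `RCA₀`
-/

set_option linter.unusedSectionVars false

namespace Pool.Agent.Lib.MP_531058_lc.RCA

universe u

variable {M : Type u} [DSR M] {S : Set (Set M)}

theorem dsr_pos (x : M) : x < x + 1 := lt_add_of_pos_right x one_pos

theorem dsr_lt_succ {x y : M} : x < y + 1 ↔ x ≤ y := by
  constructor
  · intro h
    by_contra h1
    exact absurd (lt_of_lt_of_le h (DSR.succ_le_of_lt _ _ (not_le.mp h1))) (lt_irrefl _)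
  · exact fun h => lt_of_le_of_lt h (dsr_pos y)

theorem dsr_zero_le (x : M) : 0 ≤ x := zero_le

/-- remove the first variable -/
def rest (e : ℕ → M) : ℕ → M := fun i => e (i + 1)

@[simp] theorem rest_cons (x : M) (e : ℕ → M) : rest (cons x e) = e := rfl

@[simp] theorem rest_apply (e : ℕ → M) (i : ℕ) : rest e i = e (i + 1) := rfl

theorem cons_rest (e : ℕ → M) : cons (e 0) (rest e) = e := by
  funext i
  cases i <;> rfl

/-- renaming of variables -/
theorem PB.ren {P : (ℕ → M) → Prop} (hP : PB S P) (k : ℕ → ℕ) :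
    PB S (fun e => P (fun i => e (k i))) :=
  hP.subst (fun i e => e (k i)) fun i => PT.var (k i)

theorem PS.subst {P : (ℕ → M) → Prop} (hP : PS S P) (f : ℕ → (ℕ → M) → M) (hf : ∀ i, PT (f i)) :
    PS S (fun e => P (fun i => f i e)) := by
  obtain ⟨Q, hQ, h⟩ := hP
  refine ⟨fun e => Q (cons (e 0) (fun i => f i (rest e))), ?_, fun e => h _⟩
  have h1 := hQ.subst (fun i => match i with
    | 0 => fun e => e 0
    | i + 1 => fun e => f i (rest e)) (fun i => by
      cases i with
      | zero => exact PT.var 0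
      | succ i =>
        obtain ⟨t, ht⟩ := hf i
        exact ⟨t.subst (fun n => .var (n + 1)), fun e => by
          rw [Tm.val_subst, ht]; rfl⟩)
  refine h1.congr fun e => ?_
  have : (fun i => (match i with
    | 0 => fun e : ℕ → M => e 0
    | i + 1 => fun e => f i (rest e)) e) = cons (e 0) (fun i => f i (rest e)) := by
    funext i
    cases i <;> rfl
  rw [this]

theorem PS.ren {P : (ℕ → M) → Prop} (hP : PS S P) (k : ℕ → ℕ) :
    PS S (fun e => P (fun i => e (k i))) :=
  hP.subst (fun i e => e (k i)) fun i => PT.var (k i)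

theorem PS.tl {P : (ℕ → M) → Prop} (hP : PS S P) : PS S (fun e => P (rest e)) :=
  hP.ren (fun i => i + 1)

theorem PS.ex {P : (ℕ → M) → Prop} (hP : PS S P) : PS S (fun e => ∃ x, P (cons x e)) := by
  obtain ⟨Q, hQ, h⟩ := hP
  refine ⟨fun e => ∃ x, x < e 0 ∧ ∃ y, y < e 0 ∧ Q (cons y (cons x (rest e))), ?_, fun e => ?_⟩
  · have h1 := hQ.ren (fun i => match i with
      | 0 => 0
      | 1 => 1
      | i + 2 => i + 3)
    have h2 := (h1.ex (PT.var 1)).ex (PT.var 0)
    refine h2.congr fun e => ?_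
    refine exists_congr fun x => and_congr_right fun _ => exists_congr fun y =>
      and_congr_right fun _ => ?_
    have : (fun i => cons y (cons x e) (match i with
      | 0 => 0
      | 1 => 1
      | i + 2 => i + 3)) = cons y (cons x (rest e)) := by
      funext i
      rcases i with _ | _ | i <;> rfl
    rw [this]
  · constructor
    · rintro ⟨x, hx⟩
      obtain ⟨y, hy⟩ := (h _).mp hx
      refine ⟨x + y + 1, x, ?_, y, ?_, hy⟩
      · exact dsr_lt_succ.mpr (le_add_of_nonneg_right (dsr_zero_le _))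
      · exact dsr_lt_succ.mpr (le_add_of_nonneg_left (dsr_zero_le _))
    · rintro ⟨z, x, -, y, -, hy⟩
      exact ⟨x, (h _).mpr ⟨y, hy⟩⟩

theorem PS.and {P Q : (ℕ → M) → Prop} (hP : PS S P) (hQ : PS S Q) :
    PS S (fun e => P e ∧ Q e) := by
  obtain ⟨P', hP', h1⟩ := hP
  obtain ⟨Q', hQ', h2⟩ := hQ
  have h3 : PB S (fun e => P' (cons (e 0) (rest (rest e)))) :=
    (hP'.ren (fun i => match i with
      | 0 => 0
      | i + 1 => i + 2)).congr fun e => by
        have : (fun i => e (match i with
          | 0 => 0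
          | i + 1 => i + 2)) = cons (e 0) (rest (rest e)) := by
          funext i
          cases i <;> rfl
        rw [this]
  have h4 : PB S (fun e => Q' (cons (e 1) (rest (rest e)))) :=
    (hQ'.ren (fun i => match i with
      | 0 => 1
      | i + 1 => i + 2)).congr fun e => by
        have : (fun i => e (match i with
          | 0 => 1
          | i + 1 => i + 2)) = cons (e 1) (rest (rest e)) := by
          funext i
          cases i <;> rfl
        rw [this]
  have h5 := (h3.and h4).ps.ex.ex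
  refine h5.congr fun e => ?_
  rw [h1, h2]
  constructor
  · rintro ⟨x, y, h6, h7⟩
    exact ⟨⟨y, h6⟩, ⟨x, h7⟩⟩
  · rintro ⟨⟨y, h6⟩, ⟨x, h7⟩⟩
    exact ⟨x, y, h6, h7⟩

theorem PS.or {P Q : (ℕ → M) → Prop} (hP : PS S P) (hQ : PS S Q) :
    PS S (fun e => P e ∨ Q e) := by
  obtain ⟨P', hP', h1⟩ := hP
  obtain ⟨Q', hQ', h2⟩ := hQ
  refine ⟨fun e => P' e ∨ Q' e, hP'.or hQ', fun e => ?_⟩
  change P e ∨ Q e ↔ ∃ x, P' (cons x e) ∨ Q' (cons x e)
  rw [h1, h2]
  constructor
  · rintro (⟨x, hx⟩ | ⟨x, hx⟩)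
    · exact ⟨x, Or.inl hx⟩
    · exact ⟨x, Or.inr hx⟩
  · rintro ⟨x, hx | hx⟩
    · exact Or.inl ⟨x, hx⟩
    · exact Or.inr ⟨x, hx⟩

/-- `Σ⁰₁` collection -/
theorem RCA0.coll (h : RCA0 M S) {Q : (ℕ → M) → Prop} (hQ : PB S Q) (e : ℕ → M) (u : M)
    (hu : ∀ x, x < u → ∃ y, Q (cons y (cons x e))) :
    ∃ z, ∀ x, x < u → ∃ y, y < z ∧ Q (cons y (cons x e)) := by
  have h1 : PB S (fun e' : ℕ → M => ∀ x, x < e' 1 → ∃ y, y < e' 0 ∧
      Q (cons y (cons x (rest (rest e'))))) := by
    have h2 := hQ.ren (fun i => match i with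
      | 0 => 0
      | 1 => 1
      | i + 2 => i + 4)
    have h3 := (h2.ex (PT.var 1)).all (PT.var 1)
    refine h3.congr fun e => ?_
    refine forall_congr' fun x => imp_congr_right fun _ => exists_congr fun y =>
      and_congr_right fun _ => ?_
    have : (fun i => cons y (cons x e) (match i with
      | 0 => 0
      | 1 => 1
      | i + 2 => i + 4)) = cons y (cons x (rest (rest e))) := by
      funext i
      rcases i with _ | _ | i <;> rfl
    rw [this]
  have h2 : PS S (fun e' : ℕ → M => u < e' 0 ∨ ∃ z, ∀ x, x < e' 0 → ∃ y, y < z ∧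
      Q (cons y (cons x (rest e')))) := by
    have h3 := h1.ps.ex
    exact (PB.lt (PT.con u) (PT.var 0)).ps.or h3
  have key := h.ind h2 e ?_ ?_ u
  · rcases key with h3 | ⟨z, hz⟩
    · exact absurd h3 (_root_.lt_irrefl u)
    · exact ⟨z, hz⟩
  · exact Or.inr ⟨0, fun x hx => absurd hx (not_lt.mpr (dsr_zero_le _))⟩
  · intro n ih
    simp only [cons_zero, rest_cons] at ih ⊢
    rcases ih with h3 | ⟨z, hz⟩
    · exact Or.inl (h3.trans (dsr_pos n))
    · by_cases hn : n < u
      · obtain ⟨y, hy⟩ := hu n hn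
        right
        refine ⟨z + y + 1, fun x hx => ?_⟩
        rcases (dsr_lt_succ.mp hx).lt_or_eq with h4 | h4
        · obtain ⟨y', hy', h5⟩ := hz x h4
          exact ⟨y', hy'.trans_le ((le_add_of_nonneg_right (dsr_zero_le _)).trans
            (le_add_of_nonneg_right (dsr_zero_le _))), h5⟩
        · rw [h4]
          exact ⟨y, dsr_lt_succ.mpr (le_add_of_nonneg_left (dsr_zero_le _)), hy⟩
      · exact Or.inl (lt_of_le_of_lt (not_lt.mp hn) (dsr_pos n))

theorem PS.all (h : RCA0 M S) {P : (ℕ → M) → Prop} (hP : PS S P) {f : (ℕ → M) → M}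
    (hf : PT f) : PS S (fun e => ∀ x, x < f e → P (cons x e)) := by
  obtain ⟨Q, hQ, h1⟩ := hP
  have h2 : PB S (fun e' : ℕ → M => ∀ x, x < f (rest e') → ∃ y, y < e' 0 ∧
      Q (cons y (cons x (rest e')))) := by
    have h2 := hQ.ren (fun i => match i with
      | 0 => 0
      | 1 => 1
      | i + 2 => i + 3)
    obtain ⟨t, ht⟩ := hf
    have h3 := (h2.ex (PT.var 1)).all (f := fun e => f (rest e))
      ⟨t.subst (fun n => .var (n + 1)), fun e => by rw [Tm.val_subst, ht]; rfl⟩
    refine h3.congr fun e => ?_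
    refine forall_congr' fun x => imp_congr_right fun _ => exists_congr fun y =>
      and_congr_right fun _ => ?_
    have : (fun i => cons y (cons x e) (match i with
      | 0 => 0
      | 1 => 1
      | i + 2 => i + 3)) = cons y (cons x (rest e)) := by
      funext i
      rcases i with _ | _ | i <;> rfl
    rw [this]
  refine ⟨_, h2, fun e => ?_⟩
  simp only [cons_zero, rest_cons]
  constructor
  · intro h3
    exact h.coll hQ e (f e) fun x hx => (h1 _).mp (h3 x hx)
  · rintro ⟨z, hz⟩ x hx
    obtain ⟨y, -, hy⟩ := hz x hx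
    exact (h1 _).mpr ⟨y, hy⟩

/-- functions with `Σ⁰₁` graph -/
def PF (S : Set (Set M)) (f : (ℕ → M) → M) : Prop := PS S (fun e => e 0 = f (rest e))

theorem PT.pf {f : (ℕ → M) → M} (hf : PT f) : PF S f := by
  obtain ⟨t, ht⟩ := hf
  exact (PB.eq (PT.var 0) (f := fun e => e 0) (g := fun e => f (rest e))
    ⟨t.subst (fun n => .var (n + 1)), fun e => by rw [Tm.val_subst, ht]; rfl⟩).ps

/-- substitution of one function -/
theorem PS.comp {P : (ℕ → M) → Prop} (hP : PS S P) {f : (ℕ → M) → M} (hf : PF S f) :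
    PS S (fun e => P (cons (f e) e)) := by
  have h1 := (PS.and hf hP).ex
  refine h1.congr fun e => ?_
  simp only [cons_zero, rest_cons]
  constructor
  · rintro ⟨x, rfl, h2⟩
    exact h2
  · exact fun h2 => ⟨_, rfl, h2⟩

theorem PF.tl {f : (ℕ → M) → M} (hf : PF S f) : PF S (fun e => f (rest e)) := by
  have h1 := PS.ren hf (fun i => match i with
    | 0 => 0
    | i + 1 => i + 2)
  refine h1.congr fun e => ?_
  have : (rest fun i => e (match i with
    | 0 => 0
    | i + 1 => i + 2)) = rest (rest e) := by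
    funext i
    rfl
  rw [this]

/-- substitution of two functions -/
theorem PS.comp2 {P : (ℕ → M) → Prop} (hP : PS S P) {f g : (ℕ → M) → M} (hf : PF S f)
    (hg : PF S g) : PS S (fun e => P (cons (f e) (cons (g e) e))) := by
  have h1 := (hP.comp (f := fun e => f (rest e)) hf.tl).comp hg
  exact h1

/-- functions with `Σ⁰₁` graph have `Π⁰₁` graph -/
theorem PF.ne {f : (ℕ → M) → M} (hf : PF S f) : PS S (fun e => ¬ e 0 = f (rest e)) := by
  have h1 : PS S (fun e : ℕ → M => e 0 = f (rest (rest e)) ∧ e 1 ≠ e 0) :=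
    PS.and hf.tl (PB.eq (PT.var 1) (PT.var 0)).not.ps
  refine h1.ex.congr fun e => ?_
  simp only [cons_zero, rest_cons, cons_succ]
  constructor
  · rintro ⟨x, rfl, h2⟩ h3
    exact h2 (by rw [h3])
  · exact fun h2 => ⟨_, rfl, h2⟩

/-- composition of functions -/
theorem PF.comp {f g : (ℕ → M) → M} (hf : PF S f) (hg : PF S g) :
    PF S (fun e => f (cons (g e) e)) := by
  have h1 : PS S (fun e : ℕ → M => e 1 = f (cons (e 0) (rest (rest e)))) := by
    have h2 := PS.ren hf (fun i => match i with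
      | 0 => 1
      | 1 => 0
      | i + 2 => i + 2)
    refine h2.congr fun e => ?_
    have : (rest fun i => e (match i with
      | 0 => 1
      | 1 => 0
      | i + 2 => i + 2)) = cons (e 0) (rest (rest e)) := by
      funext i
      rcases i with _ | i <;> rfl
    rw [this]
  exact h1.comp (f := fun e => g (rest e)) hg.tl

/-- the least number principle for predicates which are `Σ⁰₁` and `Π⁰₁` -/
theorem RCA0.least (h : RCA0 M S) {P : (ℕ → M) → Prop} (hP' : PS S (fun e => ¬ P e))
    (e : ℕ → M) (x : M) (hx : P (cons x e)) : ∃ y, P (cons y e) ∧ ∀ z, z < y → ¬ P (cons z e) := by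
  by_contra hcon
  push Not at hcon
  have h1 : PS S (fun e' : ℕ → M => ∀ z, z < e' 0 → ¬ P (cons z (rest e'))) := by
    have h2 := hP'.ren (fun i => match i with
      | 0 => 0
      | i + 1 => i + 2)
    have h3 := PS.all h h2 (PT.var 0)
    refine h3.congr fun e => ?_
    refine forall_congr' fun z => imp_congr_right fun _ => ?_
    have : (fun i => cons z e (match i with
      | 0 => 0
      | i + 1 => i + 2)) = cons z (rest e) := by
      funext i
      rcases i with _ | i <;> rfl
    rw [this]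
  have key := h.ind h1 e ?_ ?_ (x + 1)
  · exact key x (dsr_pos x) hx
  · intro z hz
    exact absurd hz (not_lt.mpr (dsr_zero_le _))
  · intro n ih z hz
    simp only [cons_zero, rest_cons] at ih hz ⊢
    rcases (dsr_lt_succ.mp hz).lt_or_eq with h4 | h4
    · exact ih z h4
    · rw [h4]
      intro h5
      obtain ⟨z', h6, h7⟩ := hcon n h5
      exact ih z' h6 h7

end Pool.Agent.Lib.MP_531058_lc.RCA
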