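import Pool.Agent.Lib.MP_531058_lc.RCA.PSC

/-!
# The pairing function of Simpson in a discretely ordered semiring
-/

set_option linter.unusedSectionVars false

namespace Pool.Agent.Lib.MP_531058_lc.RCA

universe u

variable {M : Type u} [DSR M] {S : Set (Set M)}

theorem pr_lt_sq (x y : M) : pr x y < (x + y + 1) * (x + y + 1) := by
  unfold pr
  have h1 : (x + y + 1) * (x + y + 1) = (x + y) * (x + y) + x + (y + (x + y) + 1) := by ring
  rw [h1]
  refine lt_of_lt_of_le (dsr_pos _) ?_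
  gcongr
  exact le_add_of_nonneg_left (dsr_zero_le _)

theorem pr_sq_le (x y : M) : (x + y) * (x + y) ≤ pr x y := le_add_of_nonneg_right (dsr_zero_le _)

theorem pr_sum {x y x' y' : M} (h : pr x y = pr x' y') : ¬ x + y < x' + y' := by
  intro h1
  have h2 := DSR.succ_le_of_lt _ _ h1
  have h3 : (x + y + 1) * (x + y + 1) ≤ (x' + y') * (x' + y') := by
    gcongr
  have h4 := pr_lt_sq x y
  have h5 := pr_sq_le x' y'
  rw [h] at h4
  exact absurd (h4.trans_le (h3.trans h5)) (lt_irrefl _)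

theorem pr_inj {x y x' y' : M} (h : pr x y = pr x' y') : x = x' ∧ y = y' := by
  have h1 : x + y = x' + y' := le_antisymm (not_lt.mp (pr_sum h.symm)) (not_lt.mp (pr_sum h))
  have h2 : x = x' := by
    unfold pr at h
    rw [h1] at h
    exact add_left_cancel h
  refine ⟨h2, ?_⟩
  rw [h2] at h1
  exact add_left_cancel h1

theorem left_le_pr (x y : M) : x ≤ pr x y := le_add_of_nonneg_left (dsr_zero_le _)

theorem right_le_pr (x y : M) : y ≤ pr x y := by
  have h1 : y ≤ x + y := le_add_of_nonneg_left (dsr_zero_le _)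
  have h2 : x + y ≤ (x + y) * (x + y) := by
    rcases (dsr_zero_le (x + y)).eq_or_lt with h | h
    · rw [← h]
      simp
    · have h3 : 1 ≤ x + y := by
        have := DSR.succ_le_of_lt _ _ h
        rwa [zero_add] at this
      calc x + y = (x + y) * 1 := (mul_one _).symm
        _ ≤ (x + y) * (x + y) := by gcongr
  exact h1.trans (h2.trans (pr_sq_le x y))

open Classical in
/-- left component of a pair, `0` if the number is not a pair -/
noncomputable def p1 (z : M) : M := if h : ∃ x y, pr x y = z then h.choose else 0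

open Classical in
/-- right component of a pair, `0` if the number is not a pair -/
noncomputable def p2 (z : M) : M := if h : ∃ x y, pr x y = z then h.choose_spec.choose else 0

@[simp] theorem p1_pr (x y : M) : p1 (pr x y) = x := by
  have h : ∃ x' y', pr x' y' = pr x y := ⟨x, y, rfl⟩
  unfold p1
  rw [dif_pos h]
  exact (pr_inj h.choose_spec.choose_spec).1

@[simp] theorem p2_pr (x y : M) : p2 (pr x y) = y := by
  have h : ∃ x' y', pr x' y' = pr x y := ⟨x, y, rfl⟩
  unfold p2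
  rw [dif_pos h]
  exact (pr_inj h.choose_spec.choose_spec).2

theorem p1_neg {z : M} (h : ¬ ∃ x y, pr x y = z) : p1 z = 0 := by
  unfold p1
  rw [dif_neg h]

theorem p2_neg {z : M} (h : ¬ ∃ x y, pr x y = z) : p2 z = 0 := by
  unfold p2
  rw [dif_neg h]

theorem PT.pr {f g : (ℕ → M) → M} (hf : PT f) (hg : PT g) : PT (fun e => pr (f e) (g e)) :=
  ((hf.add hg).mul (hf.add hg)).add hf

/-- being a pair is `Σ⁰₀` -/
theorem PB.isPair {f : (ℕ → M) → M} (hf : PT f) : PB S (fun e => ∃ x y, pr x y = f e) := by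
  have hf1 : PT (fun e : ℕ → M => f (rest e)) := by
    obtain ⟨t, ht⟩ := hf
    exact ⟨t.subst (fun n => .var (n + 1)), fun e => by rw [Tm.val_subst, ht]; rfl⟩
  have hf2 : PT (fun e : ℕ → M => f (rest (rest e))) := by
    obtain ⟨t, ht⟩ := hf1
    exact ⟨t.subst (fun n => .var (n + 1)), fun e => by rw [Tm.val_subst, ht]; rfl⟩
  have h1 : PB S (fun e : ℕ → M => RCA.pr (e 1) (e 0) = f (rest (rest e))) :=
    PB.eq ((PT.var 1).pr (PT.var 0)) hf2
  have h2 := (h1.ex (hf1.add (PT.con 1))).ex (hf.add (PT.con 1))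
  refine h2.congr fun e => ?_
  constructor
  · rintro ⟨x, -, y, -, h3⟩
    exact ⟨x, y, h3⟩
  · rintro ⟨x, y, h3⟩
    refine ⟨x, ?_, y, ?_, h3⟩
    · rw [← h3]
      exact dsr_lt_succ.mpr (left_le_pr x y)
    · rw [rest_cons, ← h3]
      exact dsr_lt_succ.mpr (right_le_pr x y)

theorem PF.p1 : PF S (fun e : ℕ → M => p1 (e 0)) := by
  have h1 : PB S (fun e : ℕ → M => ∃ y, y < e 1 + 1 ∧ pr (e 0) y = e 1) := by
    have h2 : PB S (fun e : ℕ → M => pr (e 1) (e 0) = e 2) :=
      PB.eq ((PT.var 1).pr (PT.var 0)) (PT.var 2)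
    exact h2.ex ((PT.var 1).add (PT.con 1))
  have h3 : PB S (fun e : ℕ → M => ¬ (∃ x y, pr x y = e 1) ∧ e 0 = 0) :=
    (PB.isPair (PT.var 1)).not.and (PB.eq (PT.var 0) (PT.con 0))
  refine (h1.or h3).ps.congr fun e => ?_
  simp only [rest_apply, zero_add]
  constructor
  · rintro (⟨y, -, h4⟩ | ⟨h4, h5⟩)
    · rw [← h4, p1_pr]
    · rw [p1_neg h4, h5]
  · intro h4
    by_cases h5 : ∃ x y, pr x y = e 1
    · left
      obtain ⟨x, y, h6⟩ := h5
      refine ⟨y, ?_, ?_⟩
      · rw [← h6]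
        exact dsr_lt_succ.mpr (right_le_pr x y)
      · rw [h4, ← h6, p1_pr]
    · right
      exact ⟨h5, by rw [h4, p1_neg h5]⟩

theorem PF.p2 : PF S (fun e : ℕ → M => p2 (e 0)) := by
  have h1 : PB S (fun e : ℕ → M => ∃ x, x < e 1 + 1 ∧ pr x (e 0) = e 1) := by
    have h2 : PB S (fun e : ℕ → M => pr (e 0) (e 1) = e 2) :=
      PB.eq ((PT.var 0).pr (PT.var 1)) (PT.var 2)
    exact h2.ex ((PT.var 1).add (PT.con 1))
  have h3 : PB S (fun e : ℕ → M => ¬ (∃ x y, pr x y = e 1) ∧ e 0 = 0) :=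
    (PB.isPair (PT.var 1)).not.and (PB.eq (PT.var 0) (PT.con 0))
  refine (h1.or h3).ps.congr fun e => ?_
  simp only [rest_apply, zero_add]
  constructor
  · rintro (⟨y, -, h4⟩ | ⟨h4, h5⟩)
    · rw [← h4, p2_pr]
    · rw [p2_neg h4, h5]
  · intro h4
    by_cases h5 : ∃ x y, pr x y = e 1
    · left
      obtain ⟨x, y, h6⟩ := h5
      refine ⟨x, ?_, ?_⟩
      · rw [← h6]
        exact dsr_lt_succ.mpr (left_le_pr x y)
      · rw [h4, ← h6, p2_pr]
    · right
      exact ⟨h5, by rw [h4, p2_neg h5]⟩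

/-- sets of the model are exactly the `Δ⁰₁` sets -/
theorem RCA0.mem_iff (h : RCA0 M S) (X : Set M) :
    X ∈ S ↔ PS S (fun e => e 0 ∈ X) ∧ PS S (fun e => ¬ e 0 ∈ X) := by
  constructor
  · intro hX
    exact ⟨(PB.mem (PT.var 0) hX).ps, (PB.mem (PT.var 0) hX).not.ps⟩
  · rintro ⟨h1, h2⟩
    exact h.compr h1 h2 (fun _ => 0)

end Pool.Agent.Lib.MP_531058_lc.RCA
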