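import Pool.Agent.Lib.MP_531058_lc.RCA.Inst2

/-!
# Primitive recursion in a model of `RCA₀`
-/

set_option linter.unusedSectionVars false

namespace Pool.Agent.Lib.MP_531058_lc.RCA

universe u

variable {M : Type u} [DSR M] {S : Set (Set M)}

/-- `w` is in the set coded by `(a, b)` below `k` -/
def Dd (a b k w : M) : Prop := w < k ∧ 1 + (w + 1) * b ∣ a

/-- the coded set consists of pairs `(i, v)` which are obtained by recursion at `x` -/
def Gd (f g : M → M) (a b k x : M) : Prop :=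
  ∀ w, w < k → (1 + (w + 1) * b ∣ a → ((∃ v, v < k ∧ (v = f x ∧ w = pr 0 v)) ∨
    ∃ i, i < k ∧ ∃ u, u < k ∧ ∃ v, v < k ∧ (Dd a b k (pr i u) ∧
      (v = g (pr (pr x i) u) ∧ w = pr (i + 1) v))))

/-- `v` is the value at `n` of the function defined by recursion from `f`, `g` at `x` -/
def Hd (f g : M → M) (x n v : M) : Prop := ∃ k, ∃ b, ∃ a, Gd f g a b k x ∧ Dd a b k (pr n v)

theorem Dd.pb {fa fb fk fw : (ℕ → M) → M} (ha : PT fa) (hb : PT fb) (hk : PT fk) (hw : PT fw) :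
    PB S (fun e => Dd (fa e) (fb e) (fk e) (fw e)) :=
  (PB.lt hw hk).and (PB.dvd ((PT.con 1).add ((hw.add (PT.con 1)).mul hb)) ha)

theorem Gd.pb (h : RCA0 M S) {f g : M → M} (hf : f ∈ FF S) (hg : g ∈ FF S) :
    PB S (fun e => Gd f g (e 0) (e 1) (e 2) (e 3)) := by
  have q2 : PB S (fun e => Dd (e 4) (e 5) (e 6) (pr (e 2) (e 1)) ∧
      (e 0 = g (pr (pr (e 7) (e 2)) (e 1)) ∧ e 3 = pr (e 2 + 1) (e 0))) :=
    (Dd.pb (PT.var 4) (PT.var 5) (PT.var 6) ((PT.var 2).pr (PT.var 1))).and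
      ((FF.pb h hg (PT.var 0) (((PT.var 7).pr (PT.var 2)).pr (PT.var 1))).and
        (PB.eq (PT.var 3) (((PT.var 2).add (PT.con 1)).pr (PT.var 0))))
  have q2' := ((q2.ex (PT.var 5)).ex (PT.var 4)).ex (PT.var 3)
  have q1 : PB S (fun e => e 0 = f (e 5) ∧ e 1 = pr 0 (e 0)) :=
    (FF.pb h hf (PT.var 0) (PT.var 5)).and (PB.eq (PT.var 1) ((PT.con 0).pr (PT.var 0)))
  have q1' := q1.ex (PT.var 3)
  have q0 : PB S (fun e : ℕ → M => 1 + (e 0 + 1) * e 2 ∣ e 1) :=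
    PB.dvd ((PT.con 1).add (((PT.var 0).add (PT.con 1)).mul (PT.var 2))) (PT.var 1)
  exact (q0.imp (q1'.or q2')).all (PT.var 2)

/-- both cases of the definition -/
theorem Gd.cases {f g : M → M} {a b k x n v : M} (hG : Gd f g a b k x) (hD : Dd a b k (pr n v)) :
    (n = 0 ∧ v = f x) ∨ ∃ i u, n = i + 1 ∧ Dd a b k (pr i u) ∧ v = g (pr (pr x i) u) := by
  rcases hG _ hD.1 hD.2 with ⟨v', -, h1, h2⟩ | ⟨i, -, u, -, v', -, h1, h2, h3⟩
  · obtain ⟨h4, h5⟩ := pr_inj h2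
    exact Or.inl ⟨h4, h5.trans h1⟩
  · obtain ⟨h4, h5⟩ := pr_inj h3
    exact Or.inr ⟨i, u, h4, h1, h5.trans h2⟩

theorem Hd.zero {f g : M → M} {x v : M} (h : Hd f g x 0 v) : v = f x := by
  obtain ⟨k, b, a, h1, h2⟩ := h
  rcases h1.cases h2 with ⟨-, h3⟩ | ⟨i, u, h3, -, -⟩
  · exact h3
  · exact absurd h3 (dsr_pos i |>.trans_le' (dsr_zero_le i)).ne

theorem Hd.succ {f g : M → M} {x n v : M} (h : Hd f g x (n + 1) v) :
    ∃ u, Hd f g x n u ∧ v = g (pr (pr x n) u) := by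
  obtain ⟨k, b, a, h1, h2⟩ := h
  rcases h1.cases h2 with ⟨h3, -⟩ | ⟨i, u, h3, h4, h5⟩
  · exact absurd h3.symm (dsr_pos n |>.trans_le' (dsr_zero_le n)).ne
  · have h6 : n = i := add_right_cancel h3
    subst h6
    exact ⟨u, ⟨k, b, a, h1, h4⟩, h5⟩

theorem Hd.unique (h : RCA0 M S) {f g : M → M} {x n v v' : M}
    (h1 : Hd f g x n v) (h2 : Hd f g x n v') : v = v' := by
  obtain ⟨k, b, a, hG, hD⟩ := h1
  obtain ⟨k', b', a', hG', hD'⟩ := h2
  have key : ∀ n, ∀ v, v < k → ∀ v', v' < k' →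
      (Dd a b k (pr n v) ∧ Dd a' b' k' (pr n v') → v = v') := by
    have hQ : PB S (fun e : ℕ → M => ∀ v, v < k → ∀ v', v' < k' →
        (Dd a b k (pr (e 0) v) ∧ Dd a' b' k' (pr (e 0) v') → v = v')) := by
      have q : PB S (fun e : ℕ → M => Dd a b k (pr (e 2) (e 1)) ∧ Dd a' b' k' (pr (e 2) (e 0)) →
          e 1 = e 0) :=
        ((Dd.pb (PT.con a) (PT.con b) (PT.con k) ((PT.var 2).pr (PT.var 1))).and
          (Dd.pb (PT.con a') (PT.con b') (PT.con k') ((PT.var 2).pr (PT.var 0)))).imp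
            (PB.eq (PT.var 1) (PT.var 0))
      exact (q.all (PT.con k')).all (PT.con k)
    intro n
    refine h.bind hQ (fun _ => 0) ?_ ?_ n
    · rintro v - v' - ⟨h3, h4⟩
      rw [Hd.zero ⟨k, b, a, hG, h3⟩, Hd.zero ⟨k', b', a', hG', h4⟩]
    · intro n ih
      simp only [cons_zero] at ih ⊢
      rintro v - v' - ⟨h3, h4⟩
      rcases hG.cases h3 with ⟨h5, -⟩ | ⟨i, u, h5, h6, h7⟩
      · exact absurd h5.symm (dsr_pos n |>.trans_le' (dsr_zero_le n)).ne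
      rcases hG'.cases h4 with ⟨h8, -⟩ | ⟨i', u', h8, h9, h10⟩
      · exact absurd h8.symm (dsr_pos n |>.trans_le' (dsr_zero_le n)).ne
      have h11 : n = i := add_right_cancel h5
      have h12 : n = i' := add_right_cancel h8
      subst h11
      subst h12
      rw [h7, h10, ih u ((right_le_pr _ _).trans_lt h6.1) u' ((right_le_pr _ _).trans_lt h9.1)
        ⟨h6, h9⟩]
  exact key n v ((right_le_pr _ _).trans_lt hD.1) v' ((right_le_pr _ _).trans_lt hD'.1) ⟨hD, hD'⟩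

theorem Hd.exists (h : RCA0 M S) {f g : M → M} (hf : f ∈ FF S) (hg : g ∈ FF S) (x n : M) :
    ∃ v, Hd f g x n v := by
  have hS : PS S (fun e : ℕ → M => ∃ v, ∃ k, ∃ b, ∃ a, Gd f g a b k (e 1) ∧
      Dd a b k (pr (e 0) v)) := by
    have q1 : PB S (fun e => Gd f g (e 0) (e 1) (e 2) (e 5)) :=
      (Gd.pb h hf hg).ren (fun i => match i with
        | 3 => 5
        | i => i)
    have q2 : PB S (fun e : ℕ → M => Dd (e 0) (e 1) (e 2) (pr (e 4) (e 3))) :=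
      Dd.pb (PT.var 0) (PT.var 1) (PT.var 2) ((PT.var 4).pr (PT.var 3))
    exact (q1.and q2).ps.ex.ex.ex.ex
  refine h.ind hS (cons x fun _ => 0) ?_ ?_ n
  · show ∃ v, Hd f g x 0 v
    obtain ⟨a, b, -, -, hab⟩ := h.code (P := fun e => e 0 = pr 0 (f x))
      (PB.eq (PT.var 0) (PT.con _)) (fun _ => 0) (pr 0 (f x) + 1)
    refine ⟨f x, pr 0 (f x) + 1, b, a, ?_, dsr_pos _, (hab _ (dsr_pos _)).mpr rfl⟩
    intro w hw hd
    have h1 : w = pr 0 (f x) := (hab w hw).mp hd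
    exact Or.inl ⟨f x, dsr_lt_succ.mpr (right_le_pr _ _), rfl, h1⟩
  · intro n ih
    change ∃ v, Hd f g x n v at ih
    show ∃ v, Hd f g x (n + 1) v
    obtain ⟨v, k, b, a, hG, hD⟩ := ih
    set w' : M := pr (n + 1) (g (pr (pr x n) v)) with hw'
    have hk : k ≤ k + w' + 1 := by
      rw [add_assoc]; exact le_self_add
    have hwk : w' < k + w' + 1 := dsr_lt_succ.mpr le_add_self
    obtain ⟨a', b', -, -, hab⟩ := h.code (P := fun e => Dd a b k (e 0) ∨ e 0 = w')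
      ((Dd.pb (PT.con a) (PT.con b) (PT.con k) (PT.var 0)).or (PB.eq (PT.var 0) (PT.con _)))
      (fun _ => 0) (k + w' + 1)
    have hDD : ∀ w, Dd a b k w → Dd a' b' (k + w' + 1) w := fun w hw =>
      ⟨hw.1.trans_le hk, (hab w (hw.1.trans_le hk)).mpr (Or.inl hw)⟩
    refine ⟨g (pr (pr x n) v), k + w' + 1, b', a', ?_, hwk, (hab _ hwk).mpr (Or.inr rfl)⟩
    intro w hw hd
    rcases (hab w hw).mp hd with h1 | h1
    · rcases hG w h1.1 h1.2 with ⟨v', h2, h3⟩ | ⟨i, hi, u, hu, v', hv', h2, h3⟩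
      · exact Or.inl ⟨v', h2.trans_le hk, h3⟩
      · exact Or.inr ⟨i, hi.trans_le hk, u, hu.trans_le hk, v', hv'.trans_le hk, hDD _ h2, h3⟩
    · have h1' : w = w' := h1
      refine Or.inr ⟨n, ?_, v, ?_, g (pr (pr x n) v), ?_, hDD _ hD, rfl, h1'⟩
      · exact ((left_le_pr _ _).trans_lt hD.1).trans_le hk
      · exact ((right_le_pr _ _).trans_lt hD.1).trans_le hk
      · exact (right_le_pr _ _).trans_lt hwk

/-- closure under primitive recursion -/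
theorem FF.prec (h : RCA0 M S) (f : M → M) (hf : f ∈ FF S) (g : M → M) (hg : g ∈ FF S) :
    ∃ r ∈ FF S, ∀ x, r (pr x 0) = f x ∧
      ∀ n, r (pr x (n + 1)) = g (pr (pr x n) (r (pr x n))) := by
  choose r hr using fun w : M => Hd.exists h hf hg (p1 w) (p2 w)
  have hr' : ∀ x n, Hd f g x n (r (pr x n)) := fun x n => by
    have := hr (pr x n)
    rwa [p1_pr, p2_pr] at this
  refine ⟨r, ?_, fun x => ⟨(hr' x 0).zero, fun n => ?_⟩⟩
  · refine FF.of_ps h (fun _ => 0) (P := fun e => ∃ n, ∃ x, ∃ k, ∃ b, ∃ a,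
      (Gd f g a b k x ∧ Dd a b k (pr n (e 0))) ∧ (x = p1 (e 1) ∧ n = p2 (e 1))) ?_ fun w y => ?_
    · have q1 : PB S (fun e : ℕ → M => Dd (e 0) (e 1) (e 2) (pr (e 4) (e 5))) :=
        Dd.pb (PT.var 0) (PT.var 1) (PT.var 2) ((PT.var 4).pr (PT.var 5))
      have q2 : PB S (fun e : ℕ → M => e 3 = p1 (e 6)) :=
        FF.pb h (FF.p1_mem h) (PT.var 3) (PT.var 6)
      have q3 : PB S (fun e : ℕ → M => e 4 = p2 (e 6)) :=
        FF.pb h (FF.p2_mem h) (PT.var 4) (PT.var 6)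
      exact (((Gd.pb h hf hg).and q1).and (q2.and q3)).ps.ex.ex.ex.ex.ex
    · constructor
      · rintro ⟨n, x, k, b, a, ⟨h1, h2⟩, h3, h4⟩
        have h3' : x = p1 w := h3
        have h4' : n = p2 w := h4
        subst h3'
        subst h4'
        exact Hd.unique h ⟨k, b, a, h1, h2⟩ (hr w)
      · intro hy
        have hy' : y = r w := hy
        subst hy'
        obtain ⟨k, b, a, h1, h2⟩ := hr w
        exact ⟨_, _, k, b, a, ⟨h1, h2⟩, rfl, rfl⟩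
  · obtain ⟨u, h1, h2⟩ := (hr' x (n + 1)).succ
    rw [h2, Hd.unique h h1 (hr' x n)]

end Pool.Agent.Lib.MP_531058_lc.RCA
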