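import Pool.Agent.Lib.MP_531058_lc.RCA.Model

/-!
# Definable functions and predicates on environments

`PT f`: `f` is given by a term; `PB S P`: `P` is given by a `Σ⁰₀` formula; `PS S P`: `P` is given by
a `Σ⁰₁` formula (one unbounded existential quantifier in front).
-/

set_option linter.unusedSectionVars false

namespace Pool.Agent.Lib.MP_531058_lc.RCA

universe u

variable {M : Type u} [Add M] [Mul M] [LT M] {S : Set (Set M)}

@[simp] theorem cons_zero (x : M) (e : ℕ → M) : cons x e 0 = x := rfl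

@[simp] theorem cons_succ (x : M) (e : ℕ → M) (n : ℕ) : cons x e (n + 1) = e n := rfl

/-- functions on environments given by terms -/
def PT (f : (ℕ → M) → M) : Prop := ∃ t : Tm M, ∀ e, t.val e = f e

/-- predicates on environments given by `Σ⁰₀` formulas -/
def PB (S : Set (Set M)) (P : (ℕ → M) → Prop) : Prop := ∃ φ : Bd S, ∀ e, φ.sat e ↔ P e

/-- predicates on environments given by `Σ⁰₁` formulas -/
def PS (S : Set (Set M)) (P : (ℕ → M) → Prop) : Prop :=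
  ∃ Q, PB S Q ∧ ∀ e, P e ↔ ∃ x, Q (cons x e)

theorem PT.var (n : ℕ) : PT (fun e : ℕ → M => e n) := ⟨.var n, fun _ => rfl⟩

theorem PT.con (a : M) : PT (fun _ : ℕ → M => a) := ⟨.con a, fun _ => rfl⟩

theorem PT.add {f g : (ℕ → M) → M} (hf : PT f) (hg : PT g) : PT (fun e => f e + g e) := by
  obtain ⟨s, hs⟩ := hf
  obtain ⟨t, ht⟩ := hg
  exact ⟨.add s t, fun e => by simp [Tm.val, hs, ht]⟩

theorem PT.mul {f g : (ℕ → M) → M} (hf : PT f) (hg : PT g) : PT (fun e => f e * g e) := by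
  obtain ⟨s, hs⟩ := hf
  obtain ⟨t, ht⟩ := hg
  exact ⟨.mul s t, fun e => by simp [Tm.val, hs, ht]⟩

/-- simultaneous substitution -/
def Tm.subst (σ : ℕ → Tm M) : Tm M → Tm M
  | .var n => σ n
  | .con a => .con a
  | .add s t => .add (s.subst σ) (t.subst σ)
  | .mul s t => .mul (s.subst σ) (t.subst σ)

theorem Tm.val_subst (σ : ℕ → Tm M) (t : Tm M) (e : ℕ → M) :
    (t.subst σ).val e = t.val (fun n => (σ n).val e) := by
  induction t with
  | var n => rfl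
  | con a => rfl
  | add s t hs ht => simp [Tm.subst, Tm.val, hs, ht]
  | mul s t hs ht => simp [Tm.subst, Tm.val, hs, ht]

/-- the substitution below a quantifier -/
def lft (σ : ℕ → Tm M) : ℕ → Tm M
  | 0 => .var 0
  | n + 1 => (σ n).subst (fun k => .var (k + 1))

/-- simultaneous substitution in formulas -/
def Bd.subst : (ℕ → Tm M) → Bd S → Bd S
  | σ, .eq s t => .eq (s.subst σ) (t.subst σ)
  | σ, .lt s t => .lt (s.subst σ) (t.subst σ)
  | σ, .mem t X => .mem (t.subst σ) X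
  | σ, .neg φ => .neg (φ.subst σ)
  | σ, .and φ ψ => .and (φ.subst σ) (ψ.subst σ)
  | σ, .all t φ => .all (t.subst σ) (φ.subst (lft σ))

theorem Bd.sat_subst (φ : Bd S) : ∀ (σ : ℕ → Tm M) (e : ℕ → M),
    (φ.subst σ).sat e ↔ φ.sat (fun n => (σ n).val e) := by
  induction φ with
  | eq s t => intro σ e; simp [Bd.subst, Bd.sat, Tm.val_subst]
  | lt s t => intro σ e; simp [Bd.subst, Bd.sat, Tm.val_subst]
  | mem t X => intro σ e; simp [Bd.subst, Bd.sat, Tm.val_subst]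
  | neg φ ih => intro σ e; simp [Bd.subst, Bd.sat, ih]
  | and φ ψ h1 h2 => intro σ e; simp [Bd.subst, Bd.sat, h1, h2]
  | all t φ ih =>
    intro σ e
    simp only [Bd.subst, Bd.sat, Tm.val_subst, ih]
    refine forall_congr' fun x => ?_
    have h : (fun n => (lft σ n).val (cons x e)) = cons x (fun n => (σ n).val e) := by
      funext n
      cases n with
      | zero => rfl
      | succ n => simp [lft, Tm.val_subst, Tm.val]
    rw [h]

theorem PB.subst {P : (ℕ → M) → Prop} (hP : PB S P) (f : ℕ → (ℕ → M) → M) (hf : ∀ i, PT (f i)) :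
    PB S (fun e => P (fun i => f i e)) := by
  obtain ⟨φ, hφ⟩ := hP
  choose t ht using hf
  refine ⟨φ.subst t, fun e => ?_⟩
  rw [Bd.sat_subst, hφ]
  have : (fun n => (t n).val e) = fun i => f i e := by
    funext n
    exact ht n e
  rw [this]

theorem PB.congr {P Q : (ℕ → M) → Prop} (hP : PB S P) (h : ∀ e, P e ↔ Q e) : PB S Q := by
  obtain ⟨φ, hφ⟩ := hP
  exact ⟨φ, fun e => (hφ e).trans (h e)⟩

theorem PB.eq {f g : (ℕ → M) → M} (hf : PT f) (hg : PT g) : PB S (fun e => f e = g e) := by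
  obtain ⟨s, hs⟩ := hf
  obtain ⟨t, ht⟩ := hg
  exact ⟨.eq s t, fun e => by simp [Bd.sat, hs, ht]⟩

theorem PB.lt {f g : (ℕ → M) → M} (hf : PT f) (hg : PT g) : PB S (fun e => f e < g e) := by
  obtain ⟨s, hs⟩ := hf
  obtain ⟨t, ht⟩ := hg
  exact ⟨.lt s t, fun e => by simp [Bd.sat, hs, ht]⟩

theorem PB.mem {f : (ℕ → M) → M} (hf : PT f) {X : Set M} (hX : X ∈ S) :
    PB S (fun e => f e ∈ X) := by
  obtain ⟨s, hs⟩ := hf
  exact ⟨.mem s ⟨X, hX⟩, fun e => by simp [Bd.sat, hs]⟩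

theorem PB.not {P : (ℕ → M) → Prop} (hP : PB S P) : PB S (fun e => ¬ P e) := by
  obtain ⟨φ, hφ⟩ := hP
  exact ⟨.neg φ, fun e => by simp [Bd.sat, hφ]⟩

theorem PB.and {P Q : (ℕ → M) → Prop} (hP : PB S P) (hQ : PB S Q) :
    PB S (fun e => P e ∧ Q e) := by
  obtain ⟨φ, hφ⟩ := hP
  obtain ⟨ψ, hψ⟩ := hQ
  exact ⟨.and φ ψ, fun e => by simp [Bd.sat, hφ, hψ]⟩

theorem PB.or {P Q : (ℕ → M) → Prop} (hP : PB S P) (hQ : PB S Q) :
    PB S (fun e => P e ∨ Q e) :=
  ((hP.not.and hQ.not).not).congr fun e => by tauto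

theorem PB.imp {P Q : (ℕ → M) → Prop} (hP : PB S P) (hQ : PB S Q) :
    PB S (fun e => P e → Q e) :=
  (hP.not.or hQ).congr fun e => by tauto

theorem PB.iff {P Q : (ℕ → M) → Prop} (hP : PB S P) (hQ : PB S Q) :
    PB S (fun e => (P e ↔ Q e)) :=
  ((hP.imp hQ).and (hQ.imp hP)).congr fun e => by tauto

theorem PB.all {P : (ℕ → M) → Prop} (hP : PB S P) {f : (ℕ → M) → M} (hf : PT f) :
    PB S (fun e => ∀ x, x < f e → P (cons x e)) := by
  obtain ⟨φ, hφ⟩ := hP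
  obtain ⟨t, ht⟩ := hf
  exact ⟨.all t φ, fun e => by simp [Bd.sat, hφ, ht]⟩

theorem PB.ex {P : (ℕ → M) → Prop} (hP : PB S P) {f : (ℕ → M) → M} (hf : PT f) :
    PB S (fun e => ∃ x, x < f e ∧ P (cons x e)) :=
  ((hP.not.all hf).not).congr fun _ => by push Not; rfl

/-- drop the first `k` variables -/
theorem PB.shift {P : (ℕ → M) → Prop} (hP : PB S P) (k : ℕ) :
    PB S (fun e => P (fun i => e (i + k))) :=
  hP.subst (fun i e => e (i + k)) fun i => PT.var (i + k)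

theorem PB.ps [Zero M] {P : (ℕ → M) → Prop} (hP : PB S P) : PS S P :=
  ⟨fun e => P (fun i => e (i + 1)), hP.shift 1, fun _ => ⟨fun h => ⟨0, h⟩, fun ⟨_, h⟩ => h⟩⟩

theorem PS.congr {P Q : (ℕ → M) → Prop} (hP : PS S P) (h : ∀ e, P e ↔ Q e) : PS S Q := by
  obtain ⟨R, hR, hRP⟩ := hP
  exact ⟨R, hR, fun e => (h e).symm.trans (hRP e)⟩

variable [Zero M] [One M]

/-- `Σ⁰₁` induction -/
theorem RCA0.ind (h : RCA0 M S) {P : (ℕ → M) → Prop} (hP : PS S P) (e : ℕ → M)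
    (h0 : P (cons 0 e)) (h1 : ∀ n, P (cons n e) → P (cons (n + 1) e)) (n : M) : P (cons n e) := by
  obtain ⟨Q, ⟨φ, hφ⟩, hQ⟩ := hP
  have key := h.induction φ e
  simp only [hφ, ← hQ] at key
  exact key h0 h1 n

/-- induction for `Σ⁰₀` predicates -/
theorem RCA0.bind (h : RCA0 M S) {P : (ℕ → M) → Prop} (hP : PB S P) (e : ℕ → M)
    (h0 : P (cons 0 e)) (h1 : ∀ n, P (cons n e) → P (cons (n + 1) e)) (n : M) : P (cons n e) :=
  h.ind hP.ps e h0 h1 n

/-- `Δ⁰₁` comprehension -/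
theorem RCA0.compr (h : RCA0 M S) {P : (ℕ → M) → Prop} (hP : PS S P)
    (hP' : PS S (fun e => ¬ P e)) (e : ℕ → M) : {n | P (cons n e)} ∈ S := by
  obtain ⟨Q, ⟨φ, hφ⟩, hQ⟩ := hP
  obtain ⟨Q', ⟨ψ, hψ⟩, hQ'⟩ := hP'
  have key := h.comprehension φ (.neg ψ) e
  simp only [hφ, ← hQ, Bd.sat, hψ] at key
  apply key
  intro n
  have := hQ' (cons n e)
  constructor
  · intro h1 x h2
    exact this.mpr ⟨x, h2⟩ h1
  · intro h1
    by_contra h2
    obtain ⟨x, h3⟩ := this.mp h2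
    exact h1 x h3

end Pool.Agent.Lib.MP_531058_lc.RCA
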